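import Mathlib

open Set

namespace R235.CO

/-- A continuous plurisubharmonic function on `U`: real-valued, continuous on `U`, and with the
sub-mean value inequality on every closed complex disc `{z + ζ ξ : |ζ| ≤ 1}` contained in `U`. -/
def CPSHOn {n : ℕ} (φ : EuclideanSpace ℂ (Fin n) → ℝ) (U : Set (EuclideanSpace ℂ (Fin n))) :
    Prop :=
  ContinuousOn φ U ∧ ∀ z ξ : EuclideanSpace ℂ (Fin n), (∀ ζ : ℂ, ‖ζ‖ ≤ 1 → z + ζ • ξ ∈ U) →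
    φ z ≤ Real.circleAverage (fun ζ : ℂ => φ (z + ζ • ξ)) 0 1

/-- `φ` is strictly plurisubharmonic at `z ∈ Ω`: there are an open neighbourhood `U ⊆ Ω` of `z`
and `ε > 0` such that `w ↦ φ w - ε |w|²` is plurisubharmonic on `U`. -/
def StrictPSHAt {n : ℕ} (φ : EuclideanSpace ℂ (Fin n) → ℝ) (Ω : Set (EuclideanSpace ℂ (Fin n)))
    (z : EuclideanSpace ℂ (Fin n)) : Prop :=
  ∃ U : Set (EuclideanSpace ℂ (Fin n)), IsOpen U ∧ z ∈ U ∧ U ⊆ Ω ∧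
    ∃ ε : ℝ, 0 < ε ∧ CPSHOn (fun w => φ w - ε * ‖w‖ ^ 2) U

/-- The `C^s`-core of `Ω ⊆ ℂⁿ`, `s ∈ {0, 1, 2, …, ∞}`: the points `z ∈ Ω` at which no
`C^s`-smooth plurisubharmonic function on `Ω` that is bounded from above is strictly
plurisubharmonic. -/
def core {n : ℕ} (s : ℕ∞) (Ω : Set (EuclideanSpace ℂ (Fin n))) :
    Set (EuclideanSpace ℂ (Fin n)) :=
  {z ∈ Ω | ¬ ∃ φ : EuclideanSpace ℂ (Fin n) → ℝ, ContDiffOn ℝ s φ Ω ∧ CPSHOn φ Ω ∧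
    BddAbove (φ '' Ω) ∧ StrictPSHAt φ Ω z}

end R235.CO
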