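import Mathlib

open Complex Metric Set Filter Topology Real

namespace R235.CO

/-- continuous near `z` and sub-mean value inequality on all small circles centred at `z` -/
def SH (f : ℂ → ℝ) (z : ℂ) : Prop :=
  (∀ᶠ y in 𝓝 z, ContinuousAt f y) ∧ ∀ᶠ r in 𝓝[>] (0:ℝ), f z ≤ circleAverage f z r

lemma eventually_ball {z : ℂ} {P : ℂ → Prop} (h : ∀ᶠ y in 𝓝 z, P y) :
    ∀ᶠ r in 𝓝[>] (0:ℝ), ∀ y ∈ closedBall z r, P y := by
  obtain ⟨δ, hδ, hP⟩ := Metric.eventually_nhds_iff_ball.1 h
  filter_upwards [Ioo_mem_nhdsGT hδ] with r hr y hy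
  exact hP y (closedBall_subset_ball hr.2 hy)

lemma ci_of_cont {f : ℂ → ℝ} {z : ℂ} {r : ℝ} (hr : 0 ≤ r)
    (h : ∀ y ∈ closedBall z r, ContinuousAt f y) : CircleIntegrable f z r :=
  ContinuousOn.circleIntegrable hr
    (fun y hy => (h y (sphere_subset_closedBall hy)).continuousWithinAt)

lemma SH.integ {f : ℂ → ℝ} {z : ℂ} (h : SH f z) :
    ∀ᶠ r in 𝓝[>] (0:ℝ), CircleIntegrable f z r := by
  filter_upwards [eventually_ball h.1, self_mem_nhdsWithin] with r hr hr0
  exact ci_of_cont (le_of_lt hr0) hr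

lemma SH.congr {f g : ℂ → ℝ} {z : ℂ} (h : SH f z) (hfg : f =ᶠ[𝓝 z] g) : SH g z := by
  refine ⟨?_, ?_⟩
  · have h2 := hfg.eventually_nhds
    filter_upwards [h.1, h2] with y hy1 hy2
    exact hy1.congr hy2
  · filter_upwards [h.2, eventually_ball hfg, self_mem_nhdsWithin] with r h1 h2 h3
    have h3' : 0 < r := h3
    rw [← h2 z (mem_closedBall_self h3'.le)]
    rw [circleAverage_congr_sphere (f₁ := g) (f₂ := f) (fun y hy => ?_)]
    · exact h1
    · rw [abs_of_pos h3'] at hy
      exact (h2 y (sphere_subset_closedBall hy)).symm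

lemma SH.of_le {f g : ℂ → ℝ} {z : ℂ} (h : SH f z) (hg : ∀ᶠ y in 𝓝 z, ContinuousAt g y)
    (hfg : ∀ᶠ y in 𝓝 z, f y ≤ g y) (hz : f z = g z) : SH g z := by
  refine ⟨hg, ?_⟩
  filter_upwards [h.2, eventually_ball hfg, eventually_ball hg, h.integ, self_mem_nhdsWithin]
    with r h1 h2 h3 h4 h5
  have h5' : 0 < r := h5
  rw [← hz]
  refine h1.trans (circleAverage_mono h4 (ci_of_cont h5'.le h3) ?_)
  intro y hy
  rw [abs_of_pos h5'] at hy
  exact h2 y (sphere_subset_closedBall hy)

lemma SH.max {f g : ℂ → ℝ} {z : ℂ} (hf : SH f z) (hg : SH g z) :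
    SH (fun y => max (f y) (g y)) z := by
  have hc : ∀ᶠ y in 𝓝 z, ContinuousAt (fun y => Max.max (f y) (g y)) y := by
    filter_upwards [hf.1, hg.1] with y h1 h2
    exact h1.max h2
  rcases le_total (f z) (g z) with h | h
  · refine SH.of_le hg hc (Eventually.of_forall fun y => le_max_right _ _) ?_
    exact (max_eq_right h).symm
  · refine SH.of_le hf hc (Eventually.of_forall fun y => le_max_left _ _) ?_
    exact (max_eq_left h).symm

lemma SH.add {f g : ℂ → ℝ} {z : ℂ} (hf : SH f z) (hg : SH g z) :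
    SH (fun y => f y + g y) z := by
  refine ⟨?_, ?_⟩
  · filter_upwards [hf.1, hg.1] with y h1 h2
    exact h1.add h2
  · filter_upwards [hf.2, hg.2, hf.integ, hg.integ] with r h1 h2 h3 h4
    rw [circleAverage_fun_add h3 h4]
    exact add_le_add h1 h2

lemma SH.const_mul {f : ℂ → ℝ} {z : ℂ} {c : ℝ} (hc : 0 ≤ c) (hf : SH f z) :
    SH (fun y => c * f y) z := by
  refine ⟨?_, ?_⟩
  · filter_upwards [hf.1] with y h1
    exact h1.const_mul c
  · filter_upwards [hf.2] with r h1
    have : circleAverage (fun y => c * f y) z r = c * circleAverage f z r := by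
      have := circleAverage_fun_smul (a := c) (f := f) (c := z) (R := r)
      simpa [smul_eq_mul] using this
    rw [this]
    exact mul_le_mul_of_nonneg_left h1 hc

lemma SH.const (c : ℝ) (z : ℂ) : SH (fun _ => c) z := by
  refine ⟨Eventually.of_forall fun y => continuousAt_const, ?_⟩
  filter_upwards with r
  rw [circleAverage_const]

/-- strict inequality for circle averages -/
lemma avg_lt {f : ℂ → ℝ} {z : ℂ} {r M : ℝ} (hr : 0 < r) (hf : ContinuousOn f (sphere z r))
    (hM : ∀ w ∈ sphere z r, f w ≤ M) (hlt : ∃ w ∈ sphere z r, f w < M) :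
    circleAverage f z r < M := by
  have hc : Continuous fun θ : ℝ => f (circleMap z r θ) := by
    rw [← continuousOn_univ]
    refine hf.comp (continuous_circleMap z r).continuousOn ?_
    intro θ _
    exact circleMap_mem_sphere z hr.le θ
  have h1 : (∫ θ in (0:ℝ)..2 * π, f (circleMap z r θ)) < ∫ θ in (0:ℝ)..2 * π, M := by
    refine intervalIntegral.integral_lt_integral_of_continuousOn_of_le_of_exists_lt two_pi_pos
      hc.continuousOn continuousOn_const ?_ ?_
    · intro θ _
      exact hM _ (circleMap_mem_sphere z hr.le θ)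
    · obtain ⟨w, hw, hw2⟩ := hlt
      have : w ∈ circleMap z r '' Ioc 0 (2 * π) := by
        rw [image_circleMap_Ioc, abs_of_pos hr]; exact hw
      obtain ⟨θ, hθ, rfl⟩ := this
      exact ⟨θ, Ioc_subset_Icc_self hθ, hw2⟩
  rw [circleAverage_def, smul_eq_mul]
  rw [intervalIntegral.integral_const, smul_eq_mul, sub_zero] at h1
  have h2 : (0:ℝ) < (2 * π)⁻¹ := by positivity
  calc (2 * π)⁻¹ * ∫ θ in (0:ℝ)..2 * π, f (circleMap z r θ)
      < (2 * π)⁻¹ * (2 * π * M) := by exact mul_lt_mul_of_pos_left h1 h2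
    _ = M := by field_simp

lemma max_principle {K D : Set ℂ} (hK : IsCompact K) (hD : IsOpen D) (hDK : D ⊆ K) {g : ℂ → ℝ}
    (hg : ContinuousOn g K) (hs : ∀ z ∈ D, SH g z) {M : ℝ} (hM : ∀ z ∈ K \ D, g z ≤ M) :
    ∀ z ∈ K, g z ≤ M := by
  by_contra hcon
  push Not at hcon
  obtain ⟨z₀, hz₀, hz₀M⟩ := hcon
  obtain ⟨z₁, hz₁, hmax⟩ := hK.exists_isMaxOn ⟨z₀, hz₀⟩ hg
  have hz₁M : M < g z₁ := lt_of_lt_of_le hz₀M (hmax hz₀)
  have hmax' : ∀ z ∈ K, g z ≤ g z₁ := fun z hz => hmax hz
  have hScl : IsClosed (K ∩ g ⁻¹' {g z₁}) :=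
    hg.preimage_isClosed_of_isClosed hK.isClosed isClosed_singleton
  have hSc : IsCompact (K ∩ g ⁻¹' {g z₁}) := hK.of_isClosed_subset hScl inter_subset_left
  obtain ⟨z, hz, hzmax⟩ := hSc.exists_isMaxOn ⟨z₁, hz₁, rfl⟩
    (Complex.continuous_re.continuousOn)
  have hzK : z ∈ K := hz.1
  have hzg : g z = g z₁ := hz.2
  have hzD : z ∈ D := by
    by_contra hn
    have := hM z ⟨hzK, hn⟩
    rw [hzg] at this
    linarith
  have hev := eventually_ball (hD.mem_nhds hzD)
  obtain ⟨r, h1, h2, h3⟩ := (hev.and ((hs z hzD).2.and self_mem_nhdsWithin)).exists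
  have h3' : 0 < r := h3
  have hsub : sphere z r ⊆ K := fun y hy => hDK (h1 y (sphere_subset_closedBall hy))
  have hlt : circleAverage g z r < g z₁ := by
    refine avg_lt h3' (hg.mono hsub) (fun w hw => hmax' w (hsub hw)) ?_
    refine ⟨z + r, ?_, ?_⟩
    · simp [abs_of_pos h3']
    · have hmem : z + r ∈ K := hsub (by simp [abs_of_pos h3'])
      refine lt_of_le_of_ne (hmax' _ hmem) ?_
      intro heq
      have : (z + r).re ≤ z.re := hzmax (show z + r ∈ K ∩ g ⁻¹' {g z₁} from ⟨hmem, heq⟩)
      simp at this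
      linarith
  rw [hzg] at h2
  linarith

lemma strong_max {D : Set ℂ} (hD : IsOpen D) (hD' : IsPreconnected D) {g : ℂ → ℝ}
    (hs : ∀ z ∈ D, SH g z) {M : ℝ} (hM : ∀ z ∈ D, g z ≤ M) {z₀ : ℂ} (hz₀ : z₀ ∈ D)
    (h0 : g z₀ = M) : ∀ z ∈ D, g z = M := by
  have hc : ContinuousOn g D := fun z hz => (hs z hz).1.self_of_nhds.continuousWithinAt
  have hSo : IsOpen {z ∈ D | g z = M} := by
    rw [isOpen_iff_mem_nhds]
    rintro z ⟨hz, hzM⟩
    have hev := eventually_ball (hD.mem_nhds hz)
    have hall := hev.and ((hs z hz).2)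
    obtain ⟨δ, hδ, hall⟩ := mem_nhdsGT_iff_exists_Ioo_subset.1 hall
    have hδ' : (0:ℝ) < δ := hδ
    refine Filter.mem_of_superset (ball_mem_nhds z hδ') ?_
    intro w hw
    rcases eq_or_ne w z with rfl | hne
    · exact ⟨hz, hzM⟩
    have hr : 0 < dist w z := dist_pos.2 hne
    obtain ⟨h1, h2⟩ := hall ⟨hr, hw⟩
    have hsub : sphere z (dist w z) ⊆ D := fun y hy => h1 y (sphere_subset_closedBall hy)
    have hwD : w ∈ D := hsub (mem_sphere.2 rfl)
    refine ⟨hwD, ?_⟩
    by_contra hcon
    have hlt : g w < M := lt_of_le_of_ne (hM w hwD) hcon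
    have := avg_lt hr (hc.mono hsub) (fun y hy => hM y (hsub hy)) ⟨w, mem_sphere.2 rfl, hlt⟩
    rw [hzM] at h2
    linarith
  have hTo : IsOpen {z ∈ D | g z ≠ M} := by
    have := hc.isOpen_inter_preimage hD (isOpen_compl_singleton (x := M))
    exact this
  by_contra hcon
  push Not at hcon
  obtain ⟨z, hz, hzM⟩ := hcon
  obtain ⟨y, hy, hy1, hy2⟩ := hD' _ _ hSo hTo (fun x hx => by
    by_cases h : g x = M
    · exact Or.inl ⟨hx, h⟩
    · exact Or.inr ⟨hx, h⟩) ⟨z₀, hz₀, hz₀, h0⟩ ⟨z, hz, hz, hzM⟩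
  exact hy2.2 hy1.2

lemma avg_log_norm {z p : ℂ} {r : ℝ} (hr : 0 < r) (hrz : r ≤ ‖z - p‖) :
    circleAverage (fun y : ℂ => Real.log ‖y - p‖) z r = Real.log ‖z - p‖ := by
  have h := circleAverage_log_norm_sub_const_eq_log_radius_add_posLog (a := p) (c := z) hr.ne'
  rw [h]
  have h1 : 1 ≤ r⁻¹ * ‖z - p‖ := by
    rw [inv_mul_eq_div, le_div_iff₀ hr]; linarith
  rw [Real.posLog_eq_log (by rw [abs_of_pos (by linarith)]; exact h1)]
  rw [Real.log_mul (by positivity) (by linarith [norm_nonneg z]), Real.log_inv]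
  ring

lemma SH_log' {z p : ℂ} (hz : z ≠ p) (c : ℝ) : SH (fun y : ℂ => c * Real.log ‖y - p‖) z := by
  have hz' : z - p ≠ 0 := sub_ne_zero.2 hz
  refine ⟨?_, ?_⟩
  · filter_upwards [isOpen_compl_singleton.mem_nhds hz] with y hy
    have hy' : ‖y - p‖ ≠ 0 := norm_ne_zero_iff.2 (sub_ne_zero.2 hy)
    exact (continuousAt_const).mul
      ((Real.continuousAt_log hy').comp (f := fun y : ℂ => ‖y - p‖)
        (by fun_prop : Continuous fun y : ℂ => ‖y - p‖).continuousAt)
  · filter_upwards [Ioo_mem_nhdsGT (norm_pos_iff.2 hz')] with r hr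
    have : circleAverage (fun y => c * Real.log ‖y - p‖) z r
        = c * circleAverage (fun y : ℂ => Real.log ‖y - p‖) z r := by
      have := circleAverage_fun_smul (a := c) (f := fun y : ℂ => Real.log ‖y - p‖) (c := z) (R := r)
      simpa [smul_eq_mul] using this
    rw [this, avg_log_norm hr.1 hr.2.le]

lemma SH_log {z : ℂ} (hz : z ≠ 0) (c : ℝ) : SH (fun y : ℂ => c * Real.log ‖y‖) z := by
  simpa using SH_log' hz c

lemma SH_re {F : ℂ → ℂ} (hF : Differentiable ℂ F) (c : ℝ) (z : ℂ) :
    SH (fun y => c * (F y).re) z := by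
  refine ⟨Eventually.of_forall fun y =>
    (continuous_const.mul (Complex.continuous_re.comp hF.continuous)).continuousAt, ?_⟩
  filter_upwards with r
  have h1 : circleAverage F z r = F z := (hF.diffContOnCl).circleAverage
  have hci : CircleIntegrable F z r := hF.continuous.continuousOn.circleIntegrable'
  have h2 := Complex.reCLM.circleAverage_comp_comm hci
  rw [h1] at h2
  have : circleAverage (fun y => c * (F y).re) z r
      = c * circleAverage (fun y : ℂ => (F y).re) z r := by
    have := circleAverage_fun_smul (a := c) (f := fun y : ℂ => (F y).re) (c := z) (R := r)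
    simpa [smul_eq_mul] using this
  rw [this]
  have h3 : circleAverage (fun y : ℂ => (F y).re) z r = (F z).re := h2
  rw [h3]

theorem liouville {g : ℂ → ℝ} (hs : ∀ z, SH g z) {M : ℝ} (hM : ∀ z, g z ≤ M) (z w : ℂ) :
    g z = g w := by
  have hc : Continuous g := continuous_iff_continuousAt.2 fun z => (hs z).1.self_of_nhds
  obtain ⟨z₁, hz₁, hmax⟩ := (isCompact_sphere (0:ℂ) 1).exists_isMaxOn
    ⟨1, by simp⟩ hc.continuousOn
  have hmax' : ∀ y : ℂ, ‖y‖ = 1 → g y ≤ g z₁ := fun y hy => hmax (by simpa using hy)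
  have hmain : ∀ y : ℂ, g y ≤ g z₁ := by
    intro y
    rcases le_or_gt ‖y‖ 1 with hy | hy
    · refine max_principle (isCompact_closedBall (0:ℂ) 1) isOpen_ball ball_subset_closedBall
        hc.continuousOn (fun z _ => hs z) (M := g z₁) ?_ y (by simpa using hy)
      rintro x ⟨hx1, hx2⟩
      apply hmax'
      simp at hx1 hx2
      linarith
    · by_contra hcon
      push Not at hcon
      have hl : 0 < Real.log ‖y‖ := Real.log_pos hy
      set ε := (g y - g z₁) / (2 * Real.log ‖y‖) with hε
      have hε0 : 0 < ε := div_pos (by linarith) (by linarith)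
      obtain ⟨R, hR1, hR2⟩ : ∃ R : ℝ, ‖y‖ < R ∧ M ≤ g z₁ + ε * Real.log R := by
        have h1 : Tendsto (fun R : ℝ => g z₁ + ε * Real.log R) atTop atTop :=
          tendsto_atTop_add_const_left _ _ (Real.tendsto_log_atTop.const_mul_atTop hε0)
        obtain ⟨R, h2, h3⟩ := ((h1.eventually_ge_atTop M).and (eventually_gt_atTop ‖y‖)).exists
        exact ⟨R, h3, h2⟩
      have key := max_principle (K := closedBall (0:ℂ) R \ ball 0 1)
        (D := ball (0:ℂ) R \ closedBall 0 1)
        ((isCompact_closedBall (0:ℂ) R).diff isOpen_ball)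
        (isOpen_ball.sdiff isClosed_closedBall)
        (fun x hx => ⟨ball_subset_closedBall hx.1, fun h => hx.2 (ball_subset_closedBall h)⟩)
        (g := fun x => g x + (-ε) * Real.log ‖x‖) ?_ ?_ (M := g z₁) ?_ y ?_
      · have h5 : ε * Real.log ‖y‖ = (g y - g z₁) / 2 := by
          rw [hε]; field_simp
        have h6 : g y + (-ε) * Real.log ‖y‖ ≤ g z₁ := key
        nlinarith
      · refine hc.continuousOn.add (continuousOn_const.mul ?_)
        refine ContinuousOn.log continuous_norm.continuousOn ?_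
        rintro x ⟨_, hx⟩ h0
        simp at hx
        linarith
      · rintro x ⟨_, hx⟩
        refine (hs x).add (SH_log ?_ _)
        rintro rfl
        simp at hx
      · rintro x ⟨⟨hx1, hx2⟩, hx3⟩
        simp at hx1 hx2
        have hx1' : ‖x‖ ≤ R := hx1
        rcases eq_or_lt_of_le hx2 with h | h
        · simp only [← h, Real.log_one, mul_zero, add_zero]
          exact hmax' x h.symm
        · have hxR : ‖x‖ = R := by
            by_contra hne
            apply hx3
            refine ⟨?_, ?_⟩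
            · simp; exact lt_of_le_of_ne hx1' hne
            · simp; exact h
          simp only [hxR]
          have := hM x
          linarith
      · refine ⟨?_, ?_⟩
        · simp; exact hR1.le
        · simp; exact hy.le
  have := strong_max isOpen_univ isPreconnected_univ (fun z _ => hs z) (fun z _ => hmain z)
    (mem_univ z₁) rfl
  rw [this z (mem_univ z), this w (mem_univ w)]

/-- real parts of entire functions are dense in the real continuous functions on the circle -/
lemma approx_circle {g : ℂ → ℝ} (hg : ContinuousOn g (sphere 0 1)) {ε : ℝ} (hε : 0 < ε) :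
    ∃ F : ℂ → ℂ, Differentiable ℂ F ∧ ∀ z ∈ sphere (0:ℂ) 1, |g z - (F z).re| < ε := by
  haveI : Fact ((0:ℝ) < 2 * π) := ⟨two_pi_pos⟩
  have hT : (2 * π : ℝ) ≠ 0 := two_pi_pos.ne'
  have hcirc : ∀ x : AddCircle (2 * π), ((AddCircle.toCircle x : Circle) : ℂ) ∈ sphere (0:ℂ) 1 := by
    intro x; simp
  have hcont : Continuous fun x : AddCircle (2 * π) => (AddCircle.toCircle x : ℂ) :=
    continuous_subtype_val.comp AddCircle.continuous_toCircle
  let f : C(AddCircle (2 * π), ℂ) :=
    ⟨fun x => ((g (AddCircle.toCircle x : ℂ) : ℝ) : ℂ), by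
      refine Complex.continuous_ofReal.comp ?_
      rw [← continuousOn_univ]
      exact hg.comp hcont.continuousOn (fun x _ => hcirc x)⟩
  have hf : f ∈ (Submodule.span ℂ (range <| @fourier (2 * π))).topologicalClosure := by
    rw [span_fourier_closure_eq_top]; trivial
  rw [← SetLike.mem_coe, Submodule.topologicalClosure_coe, Metric.mem_closure_iff] at hf
  obtain ⟨P, hP, hPε⟩ := hf ε hε
  have hkey : ∀ P ∈ Submodule.span ℂ (range <| @fourier (2 * π)), ∀ c : ℂ,
      ∃ F : ℂ → ℂ, Differentiable ℂ F ∧ ∀ x : AddCircle (2 * π),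
        (c * P x).re = (F (AddCircle.toCircle x : ℂ)).re := by
    intro P hP
    induction hP using Submodule.span_induction with
    | mem P hP =>
      obtain ⟨n, rfl⟩ := hP
      intro c
      rcases le_or_gt 0 n with hn | hn
      · obtain ⟨k, rfl⟩ := Int.eq_ofNat_of_zero_le hn
        refine ⟨fun z => c * z ^ k, by fun_prop, ?_⟩
        intro x
        rw [fourier_apply, AddCircle.toCircle_zsmul]
        simp
      · obtain ⟨k, hk⟩ := Int.eq_ofNat_of_zero_le (show 0 ≤ -n by omega)
        refine ⟨fun z => (starRingEnd ℂ) c * z ^ k, by fun_prop, ?_⟩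
        intro x
        have h1 : fourier n x = (starRingEnd ℂ) (fourier (k:ℤ) x) := by
          rw [← fourier_neg]
          congr 1
          congr 1
          omega
        rw [h1, fourier_apply, AddCircle.toCircle_zsmul]
        rw [← Complex.conj_re (c * _), map_mul, Complex.conj_conj]
        simp
    | zero => intro c; exact ⟨fun _ => 0, by fun_prop, by simp⟩
    | add P Q _ _ hP hQ =>
      intro c
      obtain ⟨F, hF, hF2⟩ := hP c
      obtain ⟨G, hG, hG2⟩ := hQ c
      refine ⟨fun z => F z + G z, by fun_prop, ?_⟩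
      intro x
      simp only [ContinuousMap.add_apply, mul_add, Complex.add_re, hF2, hG2]
    | smul a P _ hP =>
      intro c
      obtain ⟨F, hF, hF2⟩ := hP (c * a)
      refine ⟨F, hF, ?_⟩
      intro x
      rw [← hF2]
      simp [mul_assoc]
  obtain ⟨F, hF, hF2⟩ := hkey P hP 1
  refine ⟨F, hF, ?_⟩
  intro z hz
  have hz' : z ∈ Submonoid.unitSphere ℂ := by
    simpa [Submonoid.unitSphere] using hz
  obtain ⟨x, hx⟩ := (AddCircle.homeomorphCircle hT).surjective ⟨z, hz'⟩
  rw [AddCircle.homeomorphCircle_apply] at hx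
  have hx' : ((AddCircle.toCircle x : Circle) : ℂ) = z := by rw [hx]
  have h1 := hF2 x
  rw [hx', one_mul] at h1
  rw [← h1]
  have h2 : ‖f x - P x‖ < ε := by
    have := ContinuousMap.dist_apply_le_dist (f := f) (g := P) x
    rw [dist_eq_norm] at this
    exact lt_of_le_of_lt this hPε
  have h3 : f x = ((g z : ℝ) : ℂ) := by
    show ((g (AddCircle.toCircle x : ℂ) : ℝ) : ℂ) = _
    rw [hx']
  calc |g z - (P x).re| = |(f x - P x).re| := by rw [h3]; simp
    _ ≤ ‖f x - P x‖ := Complex.abs_re_le_norm _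
    _ < ε := h2

/-- local sub-mean value property implies the global one -/
theorem l2g {D : Set ℂ} {g : ℂ → ℝ} (hs : ∀ z ∈ D, SH g z) {z : ℂ} {r : ℝ} (hr : 0 ≤ r)
    (hb : closedBall z r ⊆ D) : g z ≤ circleAverage g z r := by
  rcases eq_or_lt_of_le hr with rfl | hr
  · simp
  have hc : ContinuousOn g (closedBall z r) :=
    fun y hy => (hs y (hb hy)).1.self_of_nhds.continuousWithinAt
  have hci : CircleIntegrable g z r :=
    (hc.mono sphere_subset_closedBall).circleIntegrable hr.le
  refine le_of_forall_pos_le_add fun ε hε => ?_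
  have hmap : ∀ w ∈ sphere (0:ℂ) 1, z + r * w ∈ closedBall z r := by
    intro w hw
    simp at hw
    simp [hw, abs_of_pos hr]
  obtain ⟨F, hF, hFε⟩ := approx_circle (g := fun w => g (z + r * w))
    (hc.comp (by fun_prop) hmap) (half_pos hε)
  set G : ℂ → ℂ := fun y => F ((y - z) / r) with hG
  have hGd : Differentiable ℂ G := by
    rw [hG]
    exact hF.comp (by fun_prop)
  have happ : ∀ y ∈ sphere z r, |g y - (G y).re| < ε / 2 := by
    intro y hy
    have h1 : (y - z) / r ∈ sphere (0:ℂ) 1 := by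
      have : ‖y - z‖ = r := by simpa [dist_eq_norm] using hy
      simp [this, abs_of_pos hr, hr.ne']
    have h2 := hFε _ h1
    have h3 : z + r * ((y - z) / r) = y := by
      have : (r:ℂ) ≠ 0 := by exact_mod_cast hr.ne'
      field_simp
      ring
    simp only [h3] at h2
    exact h2
  have hcr : Continuous fun y => (-1:ℝ) * (G y).re :=
    continuous_const.mul (Complex.continuous_re.comp hGd.continuous)
  have key := max_principle (isCompact_closedBall z r) isOpen_ball ball_subset_closedBall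
    (g := fun y => g y + (-1) * (G y).re) (hc.add hcr.continuousOn)
    (fun y hy => (hs y (hb (ball_subset_closedBall hy))).add (SH_re hGd (-1) y))
    (M := ε / 2) ?_ z (mem_closedBall_self hr.le)
  · have h1 : circleAverage G z r = G z := (hGd.diffContOnCl).circleAverage
    have hciG : CircleIntegrable G z r := hGd.continuous.continuousOn.circleIntegrable'
    have h2 := Complex.reCLM.circleAverage_comp_comm hciG
    rw [h1] at h2
    have h3 : circleAverage (fun y : ℂ => (G y).re) z r = (G z).re := h2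
    have hciGr : CircleIntegrable (fun y => (G y).re) z r :=
      (Complex.continuous_re.comp hGd.continuous).continuousOn.circleIntegrable'
    have h4 : circleAverage (fun y : ℂ => (G y).re) z r ≤ circleAverage (fun y => g y + ε / 2) z r := by
      refine circleAverage_mono hciGr (hci.add (circleIntegrable_const _ _ _)) ?_
      intro y hy
      rw [abs_of_pos hr] at hy
      have := (abs_lt.1 (happ y hy)).1
      linarith
    rw [circleAverage_fun_add hci (circleIntegrable_const _ _ _), circleAverage_const, h3] at h4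
    linarith
  · rintro y ⟨hy1, hy2⟩
    have hy : y ∈ sphere z r := by
      rw [mem_sphere]
      rw [mem_closedBall] at hy1
      rw [mem_ball] at hy2
      linarith
    have := (abs_lt.1 (happ y hy)).2
    linarith

end R235.CO
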