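import Mathlib
import Pool.Agent.R235.CO.Sub

open Complex Metric Set Filter Topology Real

namespace R235.CO

/-- truncated logarithm -/
noncomputable def ell (p : ℂ) (κ : ℝ) (z : ℂ) : ℝ := Real.log (max (‖z - p‖ / 6) κ)

lemma ell_cont (p : ℂ) {κ : ℝ} (hκ : 0 < κ) : Continuous (ell p κ) := by
  unfold ell
  refine Continuous.log (by fun_prop) ?_
  intro z
  have : κ ≤ max (‖z - p‖ / 6) κ := le_max_right _ _
  linarith

lemma ell_ge (p : ℂ) {κ : ℝ} (hκ : 0 < κ) (z : ℂ) : Real.log κ ≤ ell p κ z :=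
  Real.log_le_log hκ (le_max_right _ _)

lemma ell_nonpos {p : ℂ} {κ : ℝ} (hκ : 0 < κ) (hκ1 : κ ≤ 1) {z : ℂ} (h : ‖z - p‖ ≤ 6) :
    ell p κ z ≤ 0 := by
  refine Real.log_nonpos ?_ ?_
  · exact hκ.le.trans (le_max_right _ _)
  · exact max_le (by linarith) hκ1

lemma ell_inner {p : ℂ} {κ : ℝ} {z : ℂ} (h : ‖z - p‖ ≤ 6 * κ) : ell p κ z = Real.log κ := by
  unfold ell
  rw [max_eq_right (by linarith)]

lemma ell_outer {p : ℂ} {κ : ℝ} {z : ℂ} (h : 6 * κ ≤ ‖z - p‖) :
    ell p κ z = Real.log (‖z - p‖ / 6) := by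
  unfold ell
  rw [max_eq_left (by linarith)]

lemma SH_ell (p : ℂ) {κ : ℝ} (hκ : 0 < κ) (z : ℂ) : SH (ell p κ) z := by
  rcases lt_or_ge (‖z - p‖) (6 * κ) with h | h
  · refine (SH.const (Real.log κ) z).congr ?_
    have : ∀ᶠ y in 𝓝 z, ‖y - p‖ < 6 * κ :=
      (by fun_prop : Continuous fun y : ℂ => ‖y - p‖).continuousAt.eventually_lt
        continuousAt_const h
    filter_upwards [this] with y hy
    exact (ell_inner hy.le).symm
  · have hz : z ≠ p := by
      rintro rfl
      simp at h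
      linarith
    have h1 : SH (fun y : ℂ => 1 * Real.log ‖y - p‖ + (-Real.log 6)) z :=
      (SH_log' hz 1).add (SH.const _ z)
    refine SH.of_le h1 (Eventually.of_forall fun y => (ell_cont p hκ).continuousAt) ?_ ?_
    · filter_upwards [isOpen_compl_singleton.mem_nhds hz] with y hy
      have hy' : 0 < ‖y - p‖ := norm_pos_iff.2 (sub_ne_zero.2 hy)
      have : 1 * Real.log ‖y - p‖ + (-Real.log 6) = Real.log (‖y - p‖ / 6) := by
        rw [Real.log_div hy'.ne' (by norm_num)]; ring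
      rw [this]
      exact Real.log_le_log (by positivity) (le_max_left _ _)
    · have hy' : 0 < ‖z - p‖ := norm_pos_iff.2 (sub_ne_zero.2 hz)
      rw [ell_outer h, Real.log_div hy'.ne' (by norm_num)]; ring

/-- state of the recursion -/
structure St where
  w : ℂ → ℝ
  L : ℂ → ℝ
  μ : ℝ

/-- the function attached to a state -/
noncomputable def St.u (s : St) (z : ℂ) : ℝ := max (s.w z) (s.L z)

/-- invariant of the recursion -/
structure Inv (s : St) : Prop where
  hw : Continuous s.w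
  hsh : ∀ z, SH (fun y => s.w y + (-1) * ‖y‖ ^ 2) z
  hμ : 0 < s.μ
  hloc : ∀ z, ∀ᶠ ζ in 𝓝 z, s.L z ≤ s.L ζ ∧ (s.L ζ = s.L z ∨ s.L ζ + s.μ < s.u ζ)
  hL : ∀ z, ‖z‖ ≤ 1 → s.L z = -1

lemma Inv.u_eq {s : St} (hs : Inv s) (z : ℂ) : (fun y => max (s.w y) (s.L z)) =ᶠ[𝓝 z] s.u := by
  filter_upwards [hs.hloc z] with ζ hζ
  rcases hζ with ⟨h1, h2 | h2⟩
  · unfold St.u; rw [h2]
  · have hμ := hs.hμ
    unfold St.u at h2 ⊢
    rcases le_total (s.w ζ) (s.L ζ) with h | h
    · rw [max_eq_right h] at h2; linarith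
    · rw [max_eq_left h, max_eq_left (h1.trans h)]

lemma Inv.u_cont {s : St} (hs : Inv s) : Continuous s.u := by
  rw [continuous_iff_continuousAt]
  intro z
  refine ContinuousAt.congr ?_ (hs.u_eq z)
  exact (hs.hw.max continuous_const).continuousAt

lemma Inv.SH_w {s : St} (hs : Inv s) (z : ℂ) (hq : SH (fun y : ℂ => ‖y‖ ^ 2) z) : SH s.w z := by
  have h := (hs.hsh z).add hq
  refine h.congr (Eventually.of_forall fun y => ?_)
  show s.w y + (-1) * ‖y‖ ^ 2 + ‖y‖ ^ 2 = s.w y
  ring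

lemma Inv.SH_u {s : St} (hs : Inv s) (z : ℂ) (hq : SH (fun y : ℂ => ‖y‖ ^ 2) z) : SH s.u z :=
  ((hs.SH_w z hq).max (SH.const (s.L z) z)).congr (hs.u_eq z)

theorem step (s : St) (hs : Inv s) {p : ℂ} (hp : 1 < ‖p‖) (hp2 : ‖p‖ < 2) {ρ₀ : ℝ}
    (hρ₀ : 0 < ρ₀) :
    ∃ (s' : St) (ρ C : ℝ), Inv s' ∧ s'.μ = s.μ / 64 ∧
      (∀ z, ‖z‖ < 3 → s.u z - s.μ / 4 ≤ s'.u z ∧ s'.u z ≤ s.u z) ∧
      (∀ z, s.L z ≤ s'.L z) ∧ 0 < ρ ∧ ρ ≤ ρ₀ ∧
      (∀ ζ ∈ ball p ρ, 1 < ‖ζ‖ ∧ ‖ζ‖ < 2 ∧ s'.u ζ = C ∧ s'.L ζ = C) := by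
  obtain ⟨η, hη⟩ : ∃ η, η = s.μ / 16 := ⟨_, rfl⟩
  have hμ := hs.hμ
  have hη0 : 0 < η := by rw [hη]; linarith
  -- choice of r
  have e1 : ∀ᶠ ζ in 𝓝 p, 1 < ‖ζ‖ := continuous_norm.continuousAt.eventually_const_lt hp
  have e2 : ∀ᶠ ζ in 𝓝 p, ‖ζ‖ < 2 := continuous_norm.continuousAt.eventually_lt_const hp2
  have e3 : ∀ᶠ ζ in 𝓝 p, |s.u ζ - s.u p| < η := by
    have := (Metric.continuousAt_iff.1 (hs.u_cont.continuousAt (x := p))) η hη0
    obtain ⟨δ, hδ, h⟩ := this
    filter_upwards [ball_mem_nhds p hδ] with ζ hζ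
    exact h hζ
  have e4 : ∀ᶠ r in 𝓝[>] (0:ℝ), 0 < r ∧ r < 1 := Ioo_mem_nhdsGT one_pos
  obtain ⟨r, hr, hr0, hr1⟩ :=
    ((eventually_ball (e1.and (e2.and (e3.and (hs.hloc p))))).and e4).exists
  have hball : ∀ {ζ : ℂ}, ‖ζ - p‖ ≤ r → 1 < ‖ζ‖ ∧ ‖ζ‖ < 2 ∧ |s.u ζ - s.u p| < η ∧
      s.L p ≤ s.L ζ ∧ (s.L ζ = s.L p ∨ s.L ζ + s.μ < s.u ζ) := by
    intro ζ hζ
    exact hr ζ (by simpa [dist_eq_norm] using hζ)
  set K := Real.log (6 / r) with hK
  have hK0 : 0 < K := Real.log_pos (by rw [lt_div_iff₀ hr0]; linarith)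
  set ε := η / K with hε
  have hε0 : 0 < ε := div_pos hη0 hK0
  have hεK : ε * K = η := by rw [hε]; field_simp
  set κ := (r / 6) ^ 4 with hκ
  have hκ0 : 0 < κ := by positivity
  have hκ1 : κ ≤ 1 := pow_le_one₀ (by positivity) (by linarith)
  have hlogr : Real.log (r / 6) = -K := by
    rw [hK, ← Real.log_inv]
    congr 1
    field_simp
  have hlogκ : Real.log κ = -4 * K := by
    rw [hκ, Real.log_pow, hlogr]; push_cast; ring
  have hκr : 6 * κ ≤ r := by
    have h1 : (r / 6) ^ 4 ≤ r / 6 := by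
      calc (r / 6) ^ 4 ≤ (r / 6) ^ 1 := pow_le_pow_of_le_one (by positivity) (by linarith) (by norm_num)
        _ = r / 6 := pow_one _
    rw [hκ]; linarith
  set c := s.u p - 5 / 2 * η with hc
  let s' : St := ⟨fun z => s.w z + ε * ell p κ z,
    fun z => if ‖z - p‖ < r then max (s.L z) c else s.L z, s.μ / 64⟩
  have hw' : ∀ z, s'.w z = s.w z + ε * ell p κ z := fun z => rfl
  have hL'in : ∀ {z}, ‖z - p‖ < r → s'.L z = max (s.L z) c := fun {z} hz => if_pos hz
  have hL'out : ∀ {z}, ¬ ‖z - p‖ < r → s'.L z = s.L z := fun {z} hz => if_neg hz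
  have hLL' : ∀ z, s.L z ≤ s'.L z := by
    intro z
    by_cases h : ‖z - p‖ < r
    · rw [hL'in h]; exact le_max_left _ _
    · rw [hL'out h]
  have hwlow : ∀ z, s.w z - 4 * η ≤ s'.w z := by
    intro z
    rw [hw']
    have h1 := mul_le_mul_of_nonneg_left (ell_ge p hκ0 z) hε0.le
    rw [hlogκ] at h1
    nlinarith
  have hulow : ∀ z, s.u z - 4 * η ≤ s'.u z := by
    intro z
    unfold St.u
    have h1 := hwlow z
    have h2 := hLL' z
    rcases le_total (s.w z) (s.L z) with h | h
    · rw [max_eq_right h]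
      refine le_trans ?_ (le_max_right _ _)
      linarith
    · rw [max_eq_left h]
      exact h1.trans (le_max_left _ _)
  have hwup : ∀ z, ‖z‖ < 3 → s'.w z ≤ s.w z := by
    intro z hz
    rw [hw']
    have : ‖z - p‖ ≤ 6 := by
      have := norm_sub_le z p
      linarith
    have h1 := mul_nonpos_of_nonneg_of_nonpos hε0.le (ell_nonpos hκ0 hκ1 this)
    linarith
  have huup : ∀ z, ‖z‖ < 3 → s'.u z ≤ s.u z := by
    intro z hz
    unfold St.u
    refine max_le ((hwup z hz).trans (le_max_left _ _)) ?_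
    by_cases h : ‖z - p‖ < r
    · rw [hL'in h]
      refine max_le (le_max_right _ _) ?_
      have h3 := (hball h.le).2.2.1
      have h4 := (abs_lt.1 h3).1
      have h5 : s.u z = max (s.w z) (s.L z) := rfl
      rw [← h5, hc]
      linarith
    · rw [hL'out h]; exact le_max_right _ _
  refine ⟨s', min (6 * κ) (min r ρ₀), max (s.L p) c, ?_, rfl, ?_, hLL', ?_, ?_, ?_⟩
  · refine ⟨?_, ?_, ?_, ?_, ?_⟩
    · show Continuous fun z => s.w z + ε * ell p κ z
      exact hs.hw.add (continuous_const.mul (ell_cont p hκ0))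
    · intro z
      have h1 := (hs.hsh z).add ((SH_ell p hκ0 z).const_mul hε0.le)
      refine h1.congr (Eventually.of_forall fun y => ?_)
      show s.w y + (-1) * ‖y‖ ^ 2 + ε * ell p κ y = s.w y + ε * ell p κ y + (-1) * ‖y‖ ^ 2
      ring
    · show 0 < s.μ / 64
      linarith
    · intro z
      have hμ' : s'.μ = η / 4 := by show s.μ / 64 = _; rw [hη]; ring
      rw [hμ']
      rcases lt_trichotomy ‖z - p‖ r with hz | hz | hz
      · have en : ∀ᶠ ζ in 𝓝 z, ‖ζ - p‖ < r :=
          (by fun_prop : Continuous fun y : ℂ => ‖y - p‖).continuousAt.eventually_lt_const hz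
        filter_upwards [en, hs.hloc z] with ζ hζ h
        rw [hL'in hζ, hL'in hz]
        obtain ⟨h1, h2⟩ := h
        refine ⟨max_le_max_right _ h1, ?_⟩
        rcases h2 with h2 | h2
        · left; rw [h2]
        · rcases le_total (s.L ζ) c with h3 | h3
          · left
            rw [max_eq_right h3, max_eq_right (h1.trans h3)]
          · right
            rw [max_eq_left h3]
            have := hulow ζ
            linarith
      · -- boundary
        have hell : ell p κ z = -K := by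
          rw [ell_outer (by rw [hz]; exact hκr), hz, hlogr]
        have en : ∀ᶠ ζ in 𝓝 z, -(9 / 8) * K < ell p κ ζ := by
          refine (ell_cont p hκ0).continuousAt.eventually_const_lt ?_
          rw [hell]; linarith
        filter_upwards [en, hs.hloc z] with ζ hζ h
        rw [hL'out (z := z) (by rw [hz]; exact lt_irrefl r)]
        obtain ⟨h1, h2⟩ := h
        by_cases hζr : ‖ζ - p‖ < r
        · rw [hL'in hζr]
          refine ⟨h1.trans (le_max_left _ _), ?_⟩
          rcases le_total (s.L ζ) c with h3 | h3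
          · right
            rw [max_eq_right h3]
            have h5 := (abs_lt.1 (hball hζr.le).2.2.1).1
            have h6 : s.L ζ < s.u ζ := by rw [hc] at h3; linarith
            have h7 : s.u ζ = s.w ζ := by
              unfold St.u at h6 ⊢
              rcases max_choice (s.w ζ) (s.L ζ) with h | h
              · exact h
              · rw [h] at h6; exact absurd h6 (lt_irrefl _)
            have h8 : s'.w ζ ≤ s'.u ζ := le_max_left _ _
            rw [hw'] at h8
            have h9 := mul_lt_mul_of_pos_left hζ hε0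
            have h10 : ε * (-(9 / 8) * K) = -(9/8) * η := by rw [← hεK]; ring
            rw [h10] at h9
            rw [hc]
            linarith
          · rw [max_eq_left h3]
            rcases h2 with h2 | h2
            · exact Or.inl h2
            · right
              have := hulow ζ
              linarith
        · rw [hL'out hζr]
          refine ⟨h1, ?_⟩
          rcases h2 with h2 | h2
          · exact Or.inl h2
          · right
            have := hulow ζ
            linarith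
      · have en : ∀ᶠ ζ in 𝓝 z, r < ‖ζ - p‖ :=
          (by fun_prop : Continuous fun y : ℂ => ‖y - p‖).continuousAt.eventually_const_lt hz
        filter_upwards [en, hs.hloc z] with ζ hζ h
        rw [hL'out hζ.not_gt, hL'out hz.not_gt]
        obtain ⟨h1, h2⟩ := h
        refine ⟨h1, ?_⟩
        rcases h2 with h2 | h2
        · exact Or.inl h2
        · right
          have := hulow ζ
          linarith
    · intro z hz
      have : ¬ ‖z - p‖ < r := by
        intro h
        have := (hball h.le).1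
        linarith
      rw [hL'out this]
      exact hs.hL z hz
  · intro z hz
    refine ⟨?_, huup z hz⟩
    have := hulow z
    linarith
  · exact lt_min (by positivity) (lt_min hr0 hρ₀)
  · exact (min_le_right _ _).trans (min_le_right _ _)
  · intro ζ hζ
    have hd : ‖ζ - p‖ < min (6 * κ) (min r ρ₀) := by simpa [dist_eq_norm] using hζ
    have hd1 : ‖ζ - p‖ < 6 * κ := hd.trans_le (min_le_left _ _)
    have hd2 : ‖ζ - p‖ < r := hd.trans_le ((min_le_right _ _).trans (min_le_left _ _))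
    obtain ⟨b1, b2, b3, b4, b5⟩ := hball hd2.le
    have b3' := abs_lt.1 b3
    have hLC : s'.L ζ = max (s.L p) c := by
      rw [hL'in hd2]
      rcases b5 with h | h
      · rw [h]
      · have h6 : s.L ζ ≤ c := by rw [hc]; linarith
        rw [max_eq_right h6, max_eq_right (b4.trans h6)]
    refine ⟨b1, b2, ?_, hLC⟩
    rw [← hLC]
    have h7 : s'.w ζ ≤ s'.L ζ := by
      have h8 : s'.w ζ = s.w ζ - 4 * η := by
        rw [hw', ell_inner hd1.le, hlogκ, ← hεK]; ring
      have h9 : s.w ζ ≤ s.u ζ := le_max_left _ _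
      have h10 : c ≤ s'.L ζ := by rw [hLC]; exact le_max_right _ _
      rw [h8]
      rw [hc] at h10
      linarith
    exact max_eq_right h7

end R235.CO
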