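import Mathlib
import Pool.Agent.R235.CO.Step

open Complex Metric Set Filter Topology Real

namespace R235.CO

lemma SH_normsq (z : ℂ) : SH (fun y : ℂ => ‖y‖ ^ 2) z := by
  have hF : Differentiable ℂ (fun y : ℂ => (starRingEnd ℂ) z * y) := by fun_prop
  have h1 : SH (fun y : ℂ => 2 * ((starRingEnd ℂ) z * y).re + (-‖z‖ ^ 2)) z :=
    (SH_re hF 2 z).add (SH.const _ z)
  refine SH.of_le h1 (Eventually.of_forall fun y => by fun_prop) ?_ ?_
  · refine Eventually.of_forall fun y => ?_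
    have : 0 ≤ ‖y - z‖ ^ 2 := by positivity
    rw [← Complex.normSq_eq_norm_sq, Complex.normSq_apply] at this ⊢
    rw [← Complex.normSq_eq_norm_sq, Complex.normSq_apply]
    simp at this ⊢
    nlinarith
  · show 2 * ((starRingEnd ℂ) z * z).re + (-‖z‖ ^ 2) = ‖z‖ ^ 2
    rw [← Complex.normSq_eq_norm_sq, Complex.normSq_apply]
    simp
    ring

lemma inv_init : Inv ⟨fun z => ‖z‖ ^ 2, fun _ => -1, 1⟩ := by
  refine ⟨by fun_prop, ?_, one_pos, ?_, fun _ _ => rfl⟩
  · intro z
    refine (SH.const 0 z).congr (Eventually.of_forall fun y => ?_)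
    show 0 = ‖y‖ ^ 2 + (-1) * ‖y‖ ^ 2
    ring
  · intro z
    exact Eventually.of_forall fun y => ⟨le_refl _, Or.inl rfl⟩

theorem exists_seq (p : ℕ → ℂ) (hp : ∀ j, 1 < ‖p j‖ ∧ ‖p j‖ < 2) :
    ∃ (s : ℕ → St) (ρ C : ℕ → ℝ), s 0 = ⟨fun z => ‖z‖ ^ 2, fun _ => -1, 1⟩ ∧
      (∀ n, Inv (s n)) ∧ ∀ n, (s (n + 1)).μ = (s n).μ / 64 ∧
      (∀ z, ‖z‖ < 3 → (s n).u z - (s n).μ / 4 ≤ (s (n + 1)).u z ∧ (s (n + 1)).u z ≤ (s n).u z) ∧
      (∀ z, (s n).L z ≤ (s (n + 1)).L z) ∧ 0 < ρ n ∧ ρ n ≤ (1 / 2) ^ n ∧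
      (∀ ζ ∈ ball (p n) (ρ n), 1 < ‖ζ‖ ∧ ‖ζ‖ < 2 ∧ (s (n + 1)).u ζ = C n ∧
        (s (n + 1)).L ζ = C n) := by
  have key : ∀ (n : ℕ) (s : {s : St // Inv s}), ∃ (s' : {s : St // Inv s}) (ρ C : ℝ),
      s'.1.μ = s.1.μ / 64 ∧
      (∀ z, ‖z‖ < 3 → s.1.u z - s.1.μ / 4 ≤ s'.1.u z ∧ s'.1.u z ≤ s.1.u z) ∧
      (∀ z, s.1.L z ≤ s'.1.L z) ∧ 0 < ρ ∧ ρ ≤ (1 / 2) ^ n ∧
      (∀ ζ ∈ ball (p n) ρ, 1 < ‖ζ‖ ∧ ‖ζ‖ < 2 ∧ s'.1.u ζ = C ∧ s'.1.L ζ = C) := by
    intro n s
    obtain ⟨s', ρ, C, h1, h2⟩ := step s.1 s.2 (hp n).1 (hp n).2 (ρ₀ := (1 / 2) ^ n) (by positivity)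
    exact ⟨⟨s', h1⟩, ρ, C, h2⟩
  choose nxt ρ C h using key
  let S : ℕ → {s : St // Inv s} := fun n => Nat.rec ⟨_, inv_init⟩ (fun n s => nxt n s) n
  refine ⟨fun n => (S n).1, fun n => ρ n (S n), fun n => C n (S n), rfl, fun n => (S n).2, ?_⟩
  intro n
  exact h n (S n)

theorem exists_u (p : ℕ → ℂ) (hp : ∀ j, 1 < ‖p j‖ ∧ ‖p j‖ < 2) :
    ∃ (U : ℂ → ℝ) (ρ C : ℕ → ℝ), (∀ z, ‖z‖ < 3 → SH U z) ∧ (∀ z, ‖z‖ < 3 → U z ≤ 9) ∧
      (∀ z, ‖z‖ < 1 → SH (fun y => U y + (-1) * ‖y‖ ^ 2) z) ∧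
      ∀ j, 0 < ρ j ∧ ρ j ≤ (1 / 2) ^ j ∧
        ∀ ζ ∈ ball (p j) (ρ j), 1 < ‖ζ‖ ∧ ‖ζ‖ < 2 ∧ U ζ = C j := by
  obtain ⟨s, ρ, C, h0, hInv, hst⟩ := exists_seq p hp
  have hμ : ∀ n, (s n).μ = (1 / 64) ^ n := by
    intro n
    induction n with
    | zero => rw [h0]; simp
    | succ n ih => rw [(hst n).1, ih, pow_succ]; ring
  set e : ℕ → ℝ := fun n => (1 / 64) ^ n with he
  have he0 : ∀ n, 0 < e n := fun n => by rw [he]; positivity
  have hes : ∀ n, e (n + 1) = e n / 64 := fun n => by rw [he]; simp only [pow_succ]; ring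
  have hmono : ∀ z, ‖z‖ < 3 → ∀ n m, n ≤ m → (s m).u z ≤ (s n).u z ∧
      (s n).u z - e n ≤ (s m).u z - e m := by
    intro z hz n m hnm
    induction m, hnm using Nat.le_induction with
    | base => exact ⟨le_refl _, le_refl _⟩
    | succ m _ ih =>
      have h1 := (hst m).2.1 z hz
      rw [hμ m] at h1
      have h2 : e (m + 1) = e m / 64 := hes m
      have h3 : e m = (1 / 64) ^ m := rfl
      have h4 := he0 m
      refine ⟨h1.2.trans ih.1, ?_⟩
      rw [← h3] at h1
      linarith [ih.2, h1.1]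
  set U : ℂ → ℝ := fun z => ⨅ n, (s n).u z with hU
  have hlow : ∀ z, ‖z‖ < 3 → ∀ n m, (s n).u z - e n ≤ (s m).u z := by
    intro z hz n m
    rcases le_total n m with h | h
    · have := (hmono z hz n m h).2
      linarith [he0 m]
    · have := (hmono z hz m n h).1
      linarith [he0 n]
  have hUlow : ∀ z, ‖z‖ < 3 → ∀ n, (s n).u z - e n ≤ U z := fun z hz n =>
    le_ciInf fun m => hlow z hz n m
  have hUup : ∀ z, ‖z‖ < 3 → ∀ n, U z ≤ (s n).u z := fun z hz n =>
    ciInf_le ⟨(s 0).u z - e 0, by rintro _ ⟨m, rfl⟩; exact hlow z hz 0 m⟩ n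
  have hetend : Tendsto e atTop (𝓝 0) := tendsto_pow_atTop_nhds_zero_of_lt_one (by norm_num) (by norm_num)
  have hunif : TendstoUniformlyOn (fun n z => (s n).u z) U atTop {z | ‖z‖ < 3} := by
    rw [Metric.tendstoUniformlyOn_iff]
    intro ε hε
    filter_upwards [(hetend.eventually_lt_const hε)] with n hn z hz
    rw [Real.dist_eq, abs_lt]
    have h1 := hUlow z hz n
    have h2 := hUup z hz n
    constructor <;> linarith
  have hopen : IsOpen {z : ℂ | ‖z‖ < 3} := isOpen_lt continuous_norm continuous_const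
  have hUc : ContinuousOn U {z | ‖z‖ < 3} :=
    hunif.continuousOn (Frequently.of_forall fun n => (hInv n).u_cont.continuousOn)
  have hUat : ∀ z, ‖z‖ < 3 → ContinuousAt U z := fun z hz => hUc.continuousAt (hopen.mem_nhds hz)
  -- generic limiting argument
  have hlim : ∀ (g : ℂ → ℝ), Continuous g → ∀ z, ‖z‖ < 3 →
      (∀ᶠ r in 𝓝[>] (0:ℝ), ∀ n, (s n).u z + g z ≤ circleAverage (fun y => (s n).u y + g y) z r) →
      SH (fun y => U y + g y) z := by
    intro g hg z hz hav
    have hz' : ∀ᶠ y in 𝓝 z, ‖y‖ < 3 := hopen.mem_nhds hz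
    refine ⟨?_, ?_⟩
    · filter_upwards [hz'] with y hy
      exact (hUat y hy).add hg.continuousAt
    · filter_upwards [hav, eventually_ball hz', self_mem_nhdsWithin] with r h1 h2 h3
      have h3' : 0 < r := h3
      refine ge_of_tendsto' (f := fun n => circleAverage (fun y => U y + g y) z r + e n)
        (x := atTop) ?_ ?_
      · have := hetend.const_add (circleAverage (fun y => U y + g y) z r)
        simpa using this
      · intro n
        have hci : CircleIntegrable (fun y => U y + g y) z r :=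
          ci_of_cont h3'.le fun y hy => (hUat y (h2 y hy)).add hg.continuousAt
        have hci2 : CircleIntegrable (fun y => (s n).u y + g y) z r :=
          ((hInv n).u_cont.add hg).continuousOn.circleIntegrable h3'.le
        calc U z + g z ≤ (s n).u z + g z := by linarith [hUup z hz n]
          _ ≤ circleAverage (fun y => (s n).u y + g y) z r := h1 n
          _ ≤ circleAverage (fun y => (U y + g y) + e n) z r := by
              refine circleAverage_mono hci2 (hci.add (circleIntegrable_const _ _ _)) ?_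
              intro y hy
              rw [abs_of_pos h3'] at hy
              have := hUlow y (h2 y (sphere_subset_closedBall hy)) n
              linarith
          _ = circleAverage (fun y => U y + g y) z r + e n := by
              rw [circleAverage_fun_add hci (circleIntegrable_const _ _ _), circleAverage_const]
  refine ⟨U, ρ, C, ?_, ?_, ?_, ?_⟩
  · intro z hz
    have := hlim (fun _ => 0) continuous_const z hz ?_
    · simpa using this
    · filter_upwards [self_mem_nhdsWithin] with r hr n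
      have hr' : 0 < r := hr
      have := l2g (D := univ) (g := (s n).u) (fun z _ => (hInv n).SH_u z (SH_normsq z))
        hr'.le (subset_univ (closedBall z r))
      simpa using this
  · intro z hz
    have h1 := hUup z hz 0
    have h2 : (s 0).u z = max (‖z‖ ^ 2) (-1) := by rw [h0]; rfl
    rw [h2] at h1
    refine h1.trans (max_le ?_ (by norm_num))
    nlinarith [norm_nonneg z]
  · intro z hz
    refine hlim (fun y => (-1) * ‖y‖ ^ 2) (by fun_prop) z (by linarith) ?_
    have hz' : ∀ᶠ y in 𝓝 z, ‖y‖ < 1 := (isOpen_lt continuous_norm continuous_const).mem_nhds hz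
    filter_upwards [eventually_ball hz', self_mem_nhdsWithin] with r h2 h3 n
    have h3' : 0 < r := h3
    have huw : ∀ y, ‖y‖ < 1 → (s n).u y = (s n).w y := by
      intro y hy
      have h4 := (hmono y (by linarith) 0 n (Nat.zero_le n)).2
      have h5 : (s 0).u y = max (‖y‖ ^ 2) (-1) := by rw [h0]; rfl
      have h6 : e 0 = 1 := by rw [he]; simp
      have h7 : 0 ≤ ‖y‖ ^ 2 := by positivity
      have h8 : ‖y‖ ^ 2 ≤ (s 0).u y := by rw [h5]; exact le_max_left _ _
      have h9 := he0 n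
      have h10 : -1 < (s n).u y := by linarith
      have h11 := (hInv n).hL y hy.le
      unfold St.u at h10 ⊢
      rw [h11] at h10 ⊢
      rcases le_total ((s n).w y) (-1) with h | h
      · rw [max_eq_right h] at h10; exact absurd h10 (lt_irrefl _)
      · exact max_eq_left h
    have h12 := l2g (D := univ) (g := fun y => (s n).w y + (-1) * ‖y‖ ^ 2)
      (fun z _ => (hInv n).hsh z) h3'.le (subset_univ (closedBall z r))
    rw [huw z hz]
    rw [circleAverage_congr_sphere (f₁ := fun y => (s n).u y + (-1) * ‖y‖ ^ 2)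
      (f₂ := fun y => (s n).w y + (-1) * ‖y‖ ^ 2)]
    · exact h12
    · intro y hy
      rw [abs_of_pos h3'] at hy
      simp only
      rw [huw y (h2 y (sphere_subset_closedBall hy))]
  · intro j
    obtain ⟨_, _, _, h4, h5, h6⟩ := hst j
    refine ⟨h4, h5, ?_⟩
    intro ζ hζ
    obtain ⟨b1, b2, b3, b4⟩ := h6 ζ hζ
    refine ⟨b1, b2, ?_⟩
    have hz : ‖ζ‖ < 3 := by linarith
    have hLm : ∀ m, j + 1 ≤ m → C j ≤ (s m).L ζ := by
      intro m hm
      induction m, hm using Nat.le_induction with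
      | base => exact b4.ge
      | succ m _ ih => exact ih.trans ((hst m).2.2.1 ζ)
    refine le_antisymm ?_ ?_
    · rw [← b3]; exact hUup ζ hz (j + 1)
    · refine le_ciInf fun m => ?_
      rcases le_total (j + 1) m with h | h
      · exact (hLm m h).trans (le_max_right _ _)
      · rw [← b3]; exact (hmono ζ hz m (j + 1) h).1

end R235.CO
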