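import Mathlib
import Pool.Agent.R235.CO.U
import Pool.Agent.R235.CO.Defs

open Complex Metric Set Filter Topology Real

namespace R235.CO

variable {n : ℕ}

lemma avg_comp {f : ℂ → ℝ} (a b : ℂ) (r : ℝ) :
    circleAverage (fun ζ => f (a + ζ * b)) 0 r = circleAverage f a (r * ‖b‖) := by
  rw [circleAverage_eq_integral_add (f := f) (c := a) (R := r * ‖b‖) (Complex.arg b),
    circleAverage_def]
  congr 1
  apply intervalIntegral.integral_congr
  intro θ _
  simp only
  congr 1
  unfold circleMap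
  have hb := Complex.norm_mul_exp_arg_mul_I b
  conv_lhs => rw [← hb]
  push_cast
  rw [show ((θ:ℂ) + (Complex.arg b : ℂ)) * I = θ * I + (Complex.arg b : ℂ) * I by ring,
    Complex.exp_add]
  ring

lemma SH.comp_affine {f : ℂ → ℝ} {a : ℂ} (b : ℂ) (h : SH f a) :
    SH (fun ζ => f (a + ζ * b)) 0 := by
  rcases eq_or_ne b 0 with rfl | hb
  · refine (SH.const (f a) 0).congr (Eventually.of_forall fun y => ?_)
    simp
  have ht : Tendsto (fun ζ : ℂ => a + ζ * b) (𝓝 0) (𝓝 a) := by
    have : Continuous fun ζ : ℂ => a + ζ * b := by fun_prop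
    simpa using this.tendsto 0
  refine ⟨?_, ?_⟩
  · filter_upwards [ht.eventually h.1] with y hy
    exact ContinuousAt.comp (f := fun ζ : ℂ => a + ζ * b) hy (by fun_prop)
  · have hb' : 0 < ‖b‖ := norm_pos_iff.2 hb
    have ht2 : Tendsto (fun r : ℝ => r * ‖b‖) (𝓝[>] 0) (𝓝[>] 0) := by
      refine tendsto_nhdsWithin_iff.2 ⟨?_, ?_⟩
      · have : Continuous fun r : ℝ => r * ‖b‖ := by fun_prop
        have := this.tendsto 0
        simp only [zero_mul] at this
        exact this.mono_left nhdsWithin_le_nhds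
      · filter_upwards [self_mem_nhdsWithin] with r hr
        exact mul_pos hr hb'
    filter_upwards [ht2.eventually h.2] with r hr
    rw [avg_comp]
    simpa using hr

lemma SH.translate {g : ℂ → ℝ} {ζ₀ : ℂ} (h : SH (fun ζ => g (ζ + ζ₀)) 0) : SH g ζ₀ := by
  have := (h.comp_affine 1)
  refine ⟨?_, ?_⟩
  · have ht : Tendsto (fun ζ : ℂ => ζ - ζ₀) (𝓝 ζ₀) (𝓝 0) := by
      have : Continuous fun ζ : ℂ => ζ - ζ₀ := by fun_prop
      simpa using this.tendsto ζ₀
    filter_upwards [ht.eventually h.1] with y hy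
    have h2 : ContinuousAt (fun x : ℂ => g ((x - ζ₀) + ζ₀)) y :=
      ContinuousAt.comp (f := fun ζ : ℂ => ζ - ζ₀) (g := fun ζ => g (ζ + ζ₀)) hy (by fun_prop)
    simpa using h2
  · filter_upwards [h.2] with r hr
    rw [circleAverage_map_add_const] at hr
    simpa using hr

/-- a function that is locally sub-mean along complex lines is plurisubharmonic -/
theorem cpsh_of_local {φ : EuclideanSpace ℂ (Fin n) → ℝ} {U : Set (EuclideanSpace ℂ (Fin n))}
    (hc : ∀ x ∈ U, ContinuousAt φ x)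
    (h : ∀ x ∈ U, ∀ ξ, SH (fun ζ : ℂ => φ (x + ζ • ξ)) 0) : CPSHOn φ U := by
  refine ⟨fun x hx => (hc x hx).continuousWithinAt, ?_⟩
  intro z ξ hz
  have := l2g (D := {ζ : ℂ | z + ζ • ξ ∈ U}) (g := fun ζ : ℂ => φ (z + ζ • ξ)) ?_ (z := 0) (r := 1)
    zero_le_one ?_
  · simpa using this
  · intro ζ₀ hζ₀
    apply SH.translate
    have := h _ hζ₀ ξ
    refine this.congr (Eventually.of_forall fun ζ => ?_)
    simp only
    congr 1
    rw [add_smul]
    abel
  · intro ζ hζ
    exact hz ζ (by simpa using hζ)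

/-- a plurisubharmonic function is sub-mean along complex lines -/
theorem CPSHOn.SH {φ : EuclideanSpace ℂ (Fin n) → ℝ} {U : Set (EuclideanSpace ℂ (Fin n))}
    (h : CPSHOn φ U) (hU : IsOpen U) {z ξ : EuclideanSpace ℂ (Fin n)} {ζ₀ : ℂ}
    (hz : z + ζ₀ • ξ ∈ U) : SH (fun ζ : ℂ => φ (z + ζ • ξ)) ζ₀ := by
  have hcl : Continuous fun ζ : ℂ => z + ζ • ξ := by fun_prop
  have hev : ∀ᶠ ζ in 𝓝 ζ₀, z + ζ • ξ ∈ U := hcl.continuousAt.eventually (hU.mem_nhds hz)
  refine ⟨?_, ?_⟩
  · filter_upwards [hev] with ζ hζ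
    exact ContinuousAt.comp (f := fun ζ : ℂ => z + ζ • ξ)
      (h.1.continuousAt (hU.mem_nhds hζ)) hcl.continuousAt
  · filter_upwards [eventually_ball hev, self_mem_nhdsWithin] with r hr hr0
    have hr0' : 0 < r := hr0
    have h1 := h.2 (z + ζ₀ • ξ) ((r : ℂ) • ξ) ?_
    · refine h1.trans_eq ?_
      rw [circleAverage_eq_circleAverage_zero_one (c := ζ₀) (R := r)]
      congr 1
      ext ζ
      congr 1
      rw [smul_smul, add_smul, mul_comm ζ]
      abel
    · intro ζ hζ
      have h2 := hr (ζ₀ + ζ * r) ?_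
      · rw [smul_smul, add_assoc, ← add_smul]
        exact h2
      · simp only [mem_closedBall, dist_eq_norm, add_sub_cancel_left, norm_mul]
        simp only [Complex.norm_real, Real.norm_eq_abs, abs_of_pos hr0']
        nlinarith [norm_nonneg ζ]

end R235.CO
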