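import Mathlib
import Pool.Agent.R235.CO.Lines

open Complex Metric Set Filter Topology Real

namespace R235.CO

/-- `ℂ³` -/
abbrev C3 := EuclideanSpace ℂ (Fin 3)

/-- the polydisc -/
def BB : Set C3 := {w | ‖w 0‖ < 3 ∧ ‖w 1‖ < 1 ∧ ‖w 2‖ < 1}

/-- slopes of the tubes -/
noncomputable def mm (j : ℕ) : ℝ := (1 / 2) ^ j

/-- a tube around the complex line `w 0 = c (1 - (ρ/32) w 1)`, `w 2 = m_j w 1` -/
def tube (c : ℂ) (ρ : ℝ) (j : ℕ) : Set C3 :=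
  {w | ‖w 0 - c * (1 - w 1 * ((ρ / 32 : ℝ) : ℂ))‖ < ρ / 8 ∧
    ‖w 2 - ((mm j : ℝ) : ℂ) * w 1‖ < mm j / 8}

/-- the pair of tubes with index `j` -/
def TT (p d : ℕ → ℂ) (ρ : ℕ → ℝ) (j : ℕ) : Set C3 :=
  tube (p j) (ρ j) j ∪ tube (p j + ((ρ j / 2 : ℝ) : ℂ) * d j) (ρ j) j

/-- the domain -/
def Om (p d : ℕ → ℂ) (ρ : ℕ → ℝ) : Set C3 := BB ∪ ⋃ j, TT p d ρ j

lemma BB_open : IsOpen BB := by
  have h : ∀ (i : Fin 3) (r : ℝ), IsOpen {w : C3 | ‖w i‖ < r} :=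
    fun i r => isOpen_lt (by fun_prop) continuous_const
  exact (h 0 3).inter ((h 1 1).inter (h 2 1))

lemma tube_open (c : ℂ) (ρ : ℝ) (j : ℕ) : IsOpen (tube c ρ j) := by
  have h1 : IsOpen {w : C3 | ‖w 0 - c * (1 - w 1 * ((ρ / 32 : ℝ) : ℂ))‖ < ρ / 8} :=
    isOpen_lt (by fun_prop) continuous_const
  have h2 : IsOpen {w : C3 | ‖w 2 - ((mm j : ℝ) : ℂ) * w 1‖ < mm j / 8} :=
    isOpen_lt (by fun_prop) continuous_const
  exact h1.inter h2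

lemma TT_open (p d : ℕ → ℂ) (ρ : ℕ → ℝ) (j : ℕ) : IsOpen (TT p d ρ j) :=
  (tube_open _ _ _).union (tube_open _ _ _)

lemma Om_open (p d : ℕ → ℂ) (ρ : ℕ → ℝ) : IsOpen (Om p d ρ) :=
  BB_open.union (isOpen_iUnion fun j => TT_open p d ρ j)

lemma mm_pos (j : ℕ) : 0 < mm j := by unfold mm; positivity

lemma mm_le_one (j : ℕ) : mm j ≤ 1 := pow_le_one₀ (by norm_num) (by norm_num)

lemma BB_convex : Convex ℝ BB := by
  have h : ∀ (i : Fin 3) (r : ℝ), Convex ℝ {w : C3 | ‖w i‖ < r} := by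
    intro i r
    intro x hx y hy a b ha hb hab
    have hx' : ‖x i‖ < r := hx
    have hy' : ‖y i‖ < r := hy
    have := (convex_ball (0:ℂ) r) (x := x i) (by simpa using hx') (y := y i) (by simpa using hy')
      ha hb hab
    simpa using this
  exact (h 0 3).inter ((h 1 1).inter (h 2 1))

lemma tube_convex (c : ℂ) (ρ : ℝ) (j : ℕ) : Convex ℝ (tube c ρ j) := by
  intro x hx y hy a b ha hb hab
  obtain ⟨hx1, hx2⟩ := hx
  obtain ⟨hy1, hy2⟩ := hy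
  have habc : (a : ℂ) + b = 1 := by exact_mod_cast hab
  refine ⟨?_, ?_⟩
  · have e1 : (a • x + b • y) 0 - c * (1 - (a • x + b • y) 1 * ((ρ / 32 : ℝ) : ℂ))
        = a • (x 0 - c * (1 - x 1 * ((ρ / 32 : ℝ) : ℂ)))
          + b • (y 0 - c * (1 - y 1 * ((ρ / 32 : ℝ) : ℂ))) := by
      simp only [PiLp.add_apply, PiLp.smul_apply, Complex.real_smul]
      linear_combination c * habc
    rw [e1]
    have := (convex_ball (0:ℂ) (ρ / 8)) (x := x 0 - c * (1 - x 1 * ((ρ / 32 : ℝ) : ℂ)))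
      (by simpa using hx1) (y := y 0 - c * (1 - y 1 * ((ρ / 32 : ℝ) : ℂ))) (by simpa using hy1)
      ha hb hab
    simpa using this
  · have e1 : (a • x + b • y) 2 - ((mm j : ℝ) : ℂ) * (a • x + b • y) 1
        = a • (x 2 - ((mm j : ℝ) : ℂ) * x 1) + b • (y 2 - ((mm j : ℝ) : ℂ) * y 1) := by
      simp only [PiLp.add_apply, PiLp.smul_apply, Complex.real_smul]
      ring
    rw [e1]
    have := (convex_ball (0:ℂ) (mm j / 8)) (x := x 2 - ((mm j : ℝ) : ℂ) * x 1)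
      (by simpa using hx2) (y := y 2 - ((mm j : ℝ) : ℂ) * y 1) (by simpa using hy2)
      ha hb hab
    simpa using this

/-- the first basis vector -/
noncomputable def e0 : C3 := EuclideanSpace.single 0 1

@[simp] lemma e0_0 : e0 0 = 1 := by simp [e0]
@[simp] lemma e0_1 : e0 1 = 0 := by simp [e0]
@[simp] lemma e0_2 : e0 2 = 0 := by simp [e0]

lemma mem_BB_line {z : ℂ} (hz : ‖z‖ < 3) : z • e0 ∈ BB := by
  refine ⟨?_, ?_, ?_⟩ <;> simp [hz]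

lemma mem_tube_line {c : ℂ} {ρ : ℝ} (hρ : 0 < ρ) (j : ℕ) : c • e0 ∈ tube c ρ j := by
  refine ⟨?_, ?_⟩
  · simp [hρ]
  · simp [mm_pos]

/-- the standing hypotheses on the data -/
structure Data (p d : ℕ → ℂ) (ρ C : ℕ → ℝ) (u : ℂ → ℝ) : Prop where
  hd : ∀ j, ‖d j‖ = 1
  hρ : ∀ j, 0 < ρ j
  hρ2 : ∀ j, ρ j ≤ (1 / 2) ^ j
  hpl : ∀ j, ∀ ζ ∈ ball (p j) (ρ j), 1 < ‖ζ‖ ∧ ‖ζ‖ < 2 ∧ u ζ = C j
  hu : ∀ z, ‖z‖ < 3 → SH u z
  hub : ∀ z, ‖z‖ < 3 → u z ≤ 9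
  hus : ∀ z, ‖z‖ < 1 → SH (fun y => u y + (-1) * ‖y‖ ^ 2) z

variable {p d : ℕ → ℂ} {ρ C : ℕ → ℝ} {u : ℂ → ℝ}

lemma Data.bmem (H : Data p d ρ C u) (j : ℕ) :
    p j + ((ρ j / 2 : ℝ) : ℂ) * d j ∈ ball (p j) (ρ j) := by
  have := H.hρ j
  rw [mem_ball, dist_eq_norm, add_sub_cancel_left, norm_mul, H.hd, Complex.norm_real,
    Real.norm_eq_abs, abs_of_pos (by linarith)]
  linarith

lemma tube_in {c q : ℂ} {ρ : ℝ} (hρ : 0 < ρ) {j : ℕ} (hc : ‖c‖ < 2) (hcq : ‖c - q‖ ≤ ρ / 2)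
    {w : C3} (hw : w ∈ tube c ρ j) (h1 : ‖w 1‖ < 1) : ‖w 0 - q‖ < ρ := by
  have h2 : w 0 - q = (w 0 - c * (1 - w 1 * ((ρ / 32 : ℝ) : ℂ))) + (c - q)
      - c * w 1 * ((ρ / 32 : ℝ) : ℂ) := by ring
  have h3 : ‖c * w 1 * ((ρ / 32 : ℝ) : ℂ)‖ ≤ 2 * 1 * (ρ / 32) := by
    rw [norm_mul, norm_mul, Complex.norm_real, Real.norm_eq_abs, abs_of_pos (by linarith)]
    gcongr
  rw [h2]
  have h4 := norm_sub_le ((w 0 - c * (1 - w 1 * ((ρ / 32 : ℝ) : ℂ))) + (c - q))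
    (c * w 1 * ((ρ / 32 : ℝ) : ℂ))
  have h5 := norm_add_le (w 0 - c * (1 - w 1 * ((ρ / 32 : ℝ) : ℂ))) (c - q)
  have h6 := hw.1
  linarith

lemma tube_BB {c : ℂ} {ρ : ℝ} (hρ : 0 < ρ) (hρ1 : ρ ≤ 1) {j : ℕ} (hc : ‖c‖ < 2)
    {w : C3} (hw : w ∈ tube c ρ j) (h1 : ‖w 1‖ < 1 / 2) : w ∈ BB := by
  refine ⟨?_, by linarith, ?_⟩
  · have h2 : w 0 = (w 0 - c * (1 - w 1 * ((ρ / 32 : ℝ) : ℂ))) + c
        - c * w 1 * ((ρ / 32 : ℝ) : ℂ) := by ring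
    have h3 : ‖c * w 1 * ((ρ / 32 : ℝ) : ℂ)‖ ≤ 2 * (1/2) * (ρ / 32) := by
      rw [norm_mul, norm_mul, Complex.norm_real, Real.norm_eq_abs, abs_of_pos (by linarith)]
      gcongr
    rw [h2]
    have h4 := norm_sub_le ((w 0 - c * (1 - w 1 * ((ρ / 32 : ℝ) : ℂ))) + c)
      (c * w 1 * ((ρ / 32 : ℝ) : ℂ))
    have h5 := norm_add_le (w 0 - c * (1 - w 1 * ((ρ / 32 : ℝ) : ℂ))) c
    have h6 := hw.1
    linarith
  · have h2 : w 2 = (w 2 - ((mm j : ℝ) : ℂ) * w 1) + ((mm j : ℝ) : ℂ) * w 1 := by ring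
    have h3 : ‖((mm j : ℝ) : ℂ) * w 1‖ ≤ 1 * (1/2) := by
      rw [norm_mul, Complex.norm_real, Real.norm_eq_abs, abs_of_pos (mm_pos j)]
      have := mm_le_one j
      gcongr
    rw [h2]
    have h5 := norm_add_le (w 2 - ((mm j : ℝ) : ℂ) * w 1) (((mm j : ℝ) : ℂ) * w 1)
    have h6 := hw.2
    have := mm_le_one j
    linarith

lemma tube_disj {c c' : ℂ} {ρ ρ' : ℝ} {i j : ℕ} (hij : i < j) {w : C3}
    (hw : w ∈ tube c ρ i) (hw' : w ∈ tube c' ρ' j) : ‖w 1‖ < 1 / 2 := by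
  have h1 := hw.2
  have h2 := hw'.2
  have h3 : (((mm i - mm j : ℝ)) : ℂ) * w 1
      = (w 2 - ((mm j : ℝ) : ℂ) * w 1) - (w 2 - ((mm i : ℝ) : ℂ) * w 1) := by
    push_cast; ring
  have h4 : mm j ≤ mm i / 2 := by
    unfold mm
    calc ((1:ℝ) / 2) ^ j ≤ (1 / 2) ^ (i + 1) :=
          pow_le_pow_of_le_one (by norm_num) (by norm_num) hij
      _ = (1 / 2) ^ i / 2 := by rw [pow_succ]; ring
  have hmi := mm_pos i
  have hmj := mm_pos j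
  have h5 : ‖(((mm i - mm j : ℝ)) : ℂ) * w 1‖ = (mm i - mm j) * ‖w 1‖ := by
    rw [norm_mul, Complex.norm_real, Real.norm_eq_abs, abs_of_pos (by linarith)]
  have h6 := norm_sub_le (w 2 - ((mm j : ℝ) : ℂ) * w 1) (w 2 - ((mm i : ℝ) : ℂ) * w 1)
  rw [← h3, h5] at h6
  by_contra hcon
  push Not at hcon
  have : (mm i - mm j) * (1 / 2) ≤ (mm i - mm j) * ‖w 1‖ :=
    mul_le_mul_of_nonneg_left hcon (by linarith)
  linarith

lemma Data.cnorm (H : Data p d ρ C u) {j : ℕ} {w : C3} (hw : w ∈ TT p d ρ j) :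
    ∃ c, ‖c‖ < 2 ∧ ‖c - p j‖ ≤ ρ j / 2 ∧ w ∈ tube c (ρ j) j := by
  have hρ := H.hρ j
  rcases hw with hw | hw
  · refine ⟨p j, ?_, ?_, hw⟩
    · exact (H.hpl j _ (mem_ball_self hρ)).2.1
    · simp; linarith
  · refine ⟨_, ?_, ?_, hw⟩
    · exact (H.hpl j _ (H.bmem j)).2.1
    · rw [add_sub_cancel_left, norm_mul, H.hd, Complex.norm_real,
        Real.norm_eq_abs, abs_of_pos (by linarith)]
      linarith

lemma Data.TT_in (H : Data p d ρ C u) {j : ℕ} {w : C3} (hw : w ∈ TT p d ρ j) (hB : w ∈ BB) :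
    w 0 ∈ ball (p j) (ρ j) := by
  obtain ⟨c, h1, h2, h3⟩ := H.cnorm hw
  rw [mem_ball, dist_eq_norm]
  exact tube_in (H.hρ j) h1 h2 h3 hB.2.1

lemma Data.rho_le_one (H : Data p d ρ C u) (j : ℕ) : ρ j ≤ 1 :=
  (H.hρ2 j).trans (pow_le_one₀ (by norm_num) (by norm_num))

lemma Data.TT_disj (H : Data p d ρ C u) {i j : ℕ} (hij : i ≠ j) {w : C3}
    (hw : w ∈ TT p d ρ i) (hw' : w ∈ TT p d ρ j) : w ∈ BB := by
  obtain ⟨c, h1, h2, h3⟩ := H.cnorm hw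
  obtain ⟨c', h1', h2', h3'⟩ := H.cnorm hw'
  have h4 : ‖w 1‖ < 1 / 2 := by
    rcases lt_or_gt_of_ne hij with h | h
    · exact tube_disj h h3 h3'
    · exact tube_disj h h3' h3
  exact tube_BB (H.hρ i) (H.rho_le_one i) h1 h3 h4

lemma Om_conn (H : Data p d ρ C u) : IsConnected (Om p d ρ) := by
  have h0 : (0 : C3) ∈ BB := by
    refine ⟨?_, ?_, ?_⟩ <;> simp
  refine ⟨⟨0, Or.inl h0⟩, ?_⟩
  have hB : IsPreconnected BB := BB_convex.isPreconnected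
  have hT : ∀ (c : ℂ) (j : ℕ), ‖c‖ < 3 → IsPreconnected (BB ∪ tube c (ρ j) j) := by
    intro c j hc
    exact hB.union (c • e0) (mem_BB_line hc) (mem_tube_line (H.hρ j) j)
      (tube_convex c (ρ j) j).isPreconnected
  have hTT : ∀ j, IsPreconnected (BB ∪ TT p d ρ j) := by
    intro j
    have h1 := (H.hpl j _ (mem_ball_self (H.hρ j))).2.1
    have h2 := (H.hpl j _ (H.bmem j)).2.1
    have := (hT (p j) j (by linarith)).union (0 : C3) (Or.inl h0) (Or.inl h0)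
      (hT (p j + ((ρ j / 2 : ℝ) : ℂ) * d j) j (by linarith))
    convert this using 1
    unfold TT
    ext x
    simp only [mem_union]
    tauto
  have : Om p d ρ = ⋃ j, (BB ∪ TT p d ρ j) := by
    unfold Om
    rw [union_iUnion]
  rw [this]
  exact isPreconnected_iUnion ⟨0, by simp [h0]⟩ hTT

open Classical in
/-- the continuous plurisubharmonic function -/
noncomputable def phi (p d : ℕ → ℂ) (ρ C : ℕ → ℝ) (u : ℂ → ℝ) (w : C3) : ℝ :=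
  if w ∈ BB then u (w 0) + max 0 (1 / 8 - 1 / 2 * ‖w 0‖ ^ 2 + (‖w 1‖ ^ 2 + ‖w 2‖ ^ 2) / 32)
  else if h : ∃ j, w ∈ TT p d ρ j then C h.choose else 0

lemma phi_BB {w : C3} (hw : w ∈ BB) : phi p d ρ C u w =
    u (w 0) + max 0 (1 / 8 - 1 / 2 * ‖w 0‖ ^ 2 + (‖w 1‖ ^ 2 + ‖w 2‖ ^ 2) / 32) := if_pos hw

lemma Data.phi_TT (H : Data p d ρ C u) {j : ℕ} {w : C3} (hw : w ∈ TT p d ρ j) :
    phi p d ρ C u w = C j := by
  by_cases hB : w ∈ BB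
  · rw [phi_BB hB]
    obtain ⟨h1, h2, h3⟩ := H.hpl j _ (H.TT_in hw hB)
    rw [h3]
    have h4 : 1 / 8 - 1 / 2 * ‖w 0‖ ^ 2 + (‖w 1‖ ^ 2 + ‖w 2‖ ^ 2) / 32 ≤ 0 := by
      have h5 := hB.2.1
      have h6 := hB.2.2
      have h7 : ‖w 1‖ ^ 2 ≤ 1 := pow_le_one₀ (norm_nonneg _) h5.le
      have h8 : ‖w 2‖ ^ 2 ≤ 1 := pow_le_one₀ (norm_nonneg _) h6.le
      have h9 : 1 ≤ ‖w 0‖ ^ 2 := one_le_pow₀ h1.le
      linarith
    rw [max_eq_left h4, add_zero]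
  · have hex : ∃ j, w ∈ TT p d ρ j := ⟨j, hw⟩
    unfold phi
    rw [if_neg hB, dif_pos hex]
    congr 1
    by_contra hne
    exact hB (H.TT_disj hne hex.choose_spec hw)

end R235.CO
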