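import Mathlib
import Pool.Agent.R235.CO.Dom

open Complex Metric Set Filter Topology Real

namespace R235.CO

variable {p d : ℕ → ℂ} {ρ C : ℕ → ℝ} {u : ℂ → ℝ}

lemma line_apply (x ξ : C3) (ζ : ℂ) (i : Fin 3) : (x + ζ • ξ) i = x i + ζ * ξ i := by
  simp

lemma C3_norm_sq (w : C3) : ‖w‖ ^ 2 = ‖w 0‖ ^ 2 + ‖w 1‖ ^ 2 + ‖w 2‖ ^ 2 := by
  rw [EuclideanSpace.norm_sq_eq, Fin.sum_univ_three]

lemma SH_line_congr {φ ψ : C3 → ℝ} {x : C3} (ξ : C3) (h : ψ =ᶠ[𝓝 x] φ)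
    (hψ : SH (fun ζ : ℂ => ψ (x + ζ • ξ)) 0) : SH (fun ζ : ℂ => φ (x + ζ • ξ)) 0 := by
  refine hψ.congr ?_
  have hcl : Tendsto (fun ζ : ℂ => x + ζ • ξ) (𝓝 0) (𝓝 x) := by
    have : Continuous fun ζ : ℂ => x + ζ • ξ := by fun_prop
    simpa using this.tendsto 0
  exact hcl.eventually h

/-- `u(w 0) + (1/8 + c₀ |w 0|² + c₁ (|w 1|² + |w 2|²))` is sub-mean along lines near `|w 0| < 1`
when `c₀ ≥ -1`, `c₁ ≥ 0` -/
lemma Data.SH_quad (H : Data p d ρ C u) {x : C3} (hx : ‖x 0‖ < 1) (ξ : C3) {c₀ c₁ c₂ : ℝ}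
    (h0 : -1 ≤ c₀) (h1 : 0 ≤ c₁) :
    SH (fun ζ : ℂ => (fun w : C3 => u (w 0) + c₀ * ‖w 0‖ ^ 2 + c₁ * (‖w 1‖ ^ 2 + ‖w 2‖ ^ 2) + c₂)
      (x + ζ • ξ)) 0 := by
  have a1 := (H.hus (x 0) hx).comp_affine (ξ 0)
  have a2 := ((SH_normsq (x 0)).comp_affine (ξ 0)).const_mul (c := c₀ + 1) (by linarith)
  have a3 := ((SH_normsq (x 1)).comp_affine (ξ 1)).const_mul h1
  have a4 := ((SH_normsq (x 2)).comp_affine (ξ 2)).const_mul h1
  have := (((a1.add a2).add a3).add a4).add (SH.const c₂ 0)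
  refine this.congr (Eventually.of_forall fun ζ => ?_)
  simp only [line_apply]
  ring

lemma Data.cont_u0 (H : Data p d ρ C u) {x : C3} (hx : ‖x 0‖ < 3) :
    ContinuousAt (fun w : C3 => u (w 0)) x := by
  have := (H.hu (x 0) hx).1.self_of_nhds
  exact ContinuousAt.comp (f := fun w : C3 => w 0) this (by fun_prop)

lemma Data.phi_cont (H : Data p d ρ C u) {x : C3} (hx : x ∈ Om p d ρ) :
    ContinuousAt (phi p d ρ C u) x := by
  rcases hx with hx | hx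
  · have h1 : ContinuousAt (fun w : C3 => u (w 0) +
        max 0 (1 / 8 - 1 / 2 * ‖w 0‖ ^ 2 + (‖w 1‖ ^ 2 + ‖w 2‖ ^ 2) / 32)) x := by
      refine (H.cont_u0 hx.1).add ?_
      have : Continuous (fun w : C3 =>
        max 0 (1 / 8 - 1 / 2 * ‖w 0‖ ^ 2 + (‖w 1‖ ^ 2 + ‖w 2‖ ^ 2) / 32)) := by fun_prop
      exact this.continuousAt
    refine h1.congr ?_
    filter_upwards [BB_open.mem_nhds hx] with w hw
    exact (phi_BB hw).symm
  · obtain ⟨j, hj⟩ := mem_iUnion.1 hx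
    refine (continuousAt_const (y := C j)).congr ?_
    filter_upwards [(TT_open p d ρ j).mem_nhds hj] with w hw
    exact (H.phi_TT hw).symm

lemma Data.phi_SH (H : Data p d ρ C u) {x : C3} (hx : x ∈ Om p d ρ) (ξ : C3) :
    SH (fun ζ : ℂ => phi p d ρ C u (x + ζ • ξ)) 0 := by
  rcases hx with hx | hx
  · rcases lt_or_ge ‖x 0‖ 1 with h | h
    · have a1 : SH (fun ζ : ℂ => (fun w : C3 => u (w 0)) (x + ζ • ξ)) 0 := by
        have := (H.hu (x 0) hx.1).comp_affine (ξ 0)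
        refine this.congr (Eventually.of_forall fun ζ => ?_)
        simp only [line_apply]
      have a2 := H.SH_quad h ξ (c₀ := -1/2) (c₁ := 1 / 32) (c₂ := 1 / 8) (by norm_num) (by norm_num)
      have a3 := a1.max a2
      refine SH_line_congr ξ (ψ := fun w : C3 => max (u (w 0)) (u (w 0) + (-1/2) * ‖w 0‖ ^ 2 +
        1 / 32 * (‖w 1‖ ^ 2 + ‖w 2‖ ^ 2) + 1 / 8)) ?_ a3
      filter_upwards [BB_open.mem_nhds hx] with w hw
      rw [phi_BB hw]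
      have key : ∀ a b : ℝ, max a (a + b) = a + max 0 b :=
        fun a b => by rw [← max_add_add_left, add_zero]
      rw [← key]
      congr 1
      ring
    · have a1 : SH (fun ζ : ℂ => (fun w : C3 => u (w 0)) (x + ζ • ξ)) 0 := by
        have := (H.hu (x 0) hx.1).comp_affine (ξ 0)
        refine this.congr (Eventually.of_forall fun ζ => ?_)
        simp only [line_apply]
      refine SH_line_congr (x := x) ξ (ψ := fun w : C3 => u (w 0)) ?_ a1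
      have hc : Continuous fun w : C3 => ‖w 0‖ := by fun_prop
      have h2 : ∀ᶠ w in 𝓝 x, 7 / 8 < ‖w 0‖ := hc.continuousAt.eventually_const_lt (by linarith)
      filter_upwards [BB_open.mem_nhds hx, h2] with w hw hw2
      rw [phi_BB hw]
      have h4 : 1 / 8 - 1 / 2 * ‖w 0‖ ^ 2 + (‖w 1‖ ^ 2 + ‖w 2‖ ^ 2) / 32 ≤ 0 := by
        have h5 := hw.2.1
        have h6 := hw.2.2
        have h7 : ‖w 1‖ ^ 2 ≤ 1 := pow_le_one₀ (norm_nonneg _) h5.le
        have h8 : ‖w 2‖ ^ 2 ≤ 1 := pow_le_one₀ (norm_nonneg _) h6.le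
        have h9 : (7 / 8) ^ 2 ≤ ‖w 0‖ ^ 2 := by gcongr
        linarith
      rw [max_eq_left h4, add_zero]
  · obtain ⟨j, hj⟩ := mem_iUnion.1 hx
    refine SH_line_congr ξ (ψ := fun _ => C j) ?_ (SH.const _ _)
    filter_upwards [(TT_open p d ρ j).mem_nhds hj] with w hw
    exact (H.phi_TT hw).symm

lemma Data.phi_bdd (H : Data p d ρ C u) : BddAbove (phi p d ρ C u '' Om p d ρ) := by
  refine ⟨10, ?_⟩
  rintro _ ⟨w, hw, rfl⟩
  rcases hw with hw | hw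
  · rw [phi_BB hw]
    have h1 := H.hub (w 0) hw.1
    have h2 : max 0 (1 / 8 - 1 / 2 * ‖w 0‖ ^ 2 + (‖w 1‖ ^ 2 + ‖w 2‖ ^ 2) / 32) ≤ 1 := by
      refine max_le zero_le_one ?_
      have h7 : ‖w 1‖ ^ 2 ≤ 1 := pow_le_one₀ (norm_nonneg _) hw.2.1.le
      have h8 : ‖w 2‖ ^ 2 ≤ 1 := pow_le_one₀ (norm_nonneg _) hw.2.2.le
      have h9 : 0 ≤ ‖w 0‖ ^ 2 := by positivity
      linarith
    linarith
  · obtain ⟨j, hj⟩ := mem_iUnion.1 hw
    rw [H.phi_TT hj]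
    obtain ⟨h1, h2, h3⟩ := H.hpl j _ (mem_ball_self (H.hρ j))
    rw [← h3]
    have := H.hub (p j) (by linarith)
    linarith

theorem Data.not_mem_core (H : Data p d ρ C u) : (0 : C3) ∉ core 0 (Om p d ρ) := by
  rintro ⟨_, hn⟩
  apply hn
  refine ⟨phi p d ρ C u, ?_, ?_, H.phi_bdd, ?_⟩
  · have : ContDiffOn ℝ 0 (phi p d ρ C u) (Om p d ρ) := by
      rw [contDiffOn_zero]
      exact fun x hx => (H.phi_cont hx).continuousWithinAt
    simpa using this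
  · exact cpsh_of_local (fun x hx => H.phi_cont hx) (fun x hx ξ => H.phi_SH hx ξ)
  · have hV : IsOpen {w : C3 | ‖w 0‖ < 1 / 2} := isOpen_lt (by fun_prop) continuous_const
    refine ⟨BB ∩ {w | ‖w 0‖ < 1 / 2}, BB_open.inter hV, ?_, ?_, 1 / 64, by norm_num, ?_⟩
    · refine ⟨⟨?_, ?_, ?_⟩, ?_⟩ <;> simp
    · exact fun w hw => Or.inl hw.1
    · have hval : ∀ w ∈ BB ∩ {w : C3 | ‖w 0‖ < 1 / 2}, phi p d ρ C u w - 1 / 64 * ‖w‖ ^ 2 =
          u (w 0) + (-1/2 - 1/64) * ‖w 0‖ ^ 2 + (1/64) * (‖w 1‖ ^ 2 + ‖w 2‖ ^ 2) + 1 / 8 := by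
        rintro w ⟨hw, hw2⟩
        have hw2' : ‖w 0‖ < 1 / 2 := hw2
        rw [phi_BB hw, C3_norm_sq]
        have h1 : ‖w 0‖ ^ 2 ≤ (1 / 2) ^ 2 := by gcongr
        have h2 : 0 ≤ ‖w 1‖ ^ 2 := by positivity
        have h3 : 0 ≤ ‖w 2‖ ^ 2 := by positivity
        rw [max_eq_right (by linarith)]
        ring
      refine cpsh_of_local ?_ ?_
      · intro x hx
        have hc : ContinuousAt (phi p d ρ C u) x := H.phi_cont (Or.inl hx.1)
        exact hc.sub (by fun_prop)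
      · intro x hx ξ
        have hx2 : ‖x 0‖ < 1 / 2 := hx.2
        have a2 := H.SH_quad (x := x) (by linarith) ξ (c₀ := -1/2 - 1/64) (c₁ := 1 / 64)
          (c₂ := 1 / 8) (by norm_num) (by norm_num)
        refine SH_line_congr (x := x) ξ (φ := fun w : C3 => phi p d ρ C u w - 1 / 64 * ‖w‖ ^ 2)
          (ψ := fun w : C3 => u (w 0) + (-1/2 - 1/64) * ‖w 0‖ ^ 2 +
          (1/64) * (‖w 1‖ ^ 2 + ‖w 2‖ ^ 2) + 1 / 8) ?_ a2
        filter_upwards [(BB_open.inter hV).mem_nhds hx] with w hw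
        exact (hval w hw).symm

end R235.CO
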