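import Mathlib
import Pool.Agent.R235.CO.Phi

open Complex Metric Set Filter Topology Real

namespace R235.CO

variable {p d : ℕ → ℂ} {ρ C : ℕ → ℝ} {u : ℂ → ℝ}

/-- direction of the line inside a tube -/
noncomputable def vv (c : ℂ) (ρ : ℝ) (j : ℕ) : C3 :=
  WithLp.toLp 2 ![-(c * ((ρ / 32 : ℝ) : ℂ)), 1, ((mm j : ℝ) : ℂ)]

@[simp] lemma vv_0 (c : ℂ) (ρ : ℝ) (j : ℕ) : vv c ρ j 0 = -(c * ((ρ / 32 : ℝ) : ℂ)) := rfl
@[simp] lemma vv_1 (c : ℂ) (ρ : ℝ) (j : ℕ) : vv c ρ j 1 = 1 := rfl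
@[simp] lemma vv_2 (c : ℂ) (ρ : ℝ) (j : ℕ) : vv c ρ j 2 = ((mm j : ℝ) : ℂ) := rfl

lemma line_mem_tube (c : ℂ) {ρ : ℝ} (hρ : 0 < ρ) (j : ℕ) (ζ : ℂ) :
    c • e0 + ζ • vv c ρ j ∈ tube c ρ j := by
  have h0 : (c • e0 + ζ • vv c ρ j) 0 = c - ζ * (c * ((ρ / 32 : ℝ) : ℂ)) := by
    rw [line_apply, vv_0]; simp; ring
  have h1 : (c • e0 + ζ • vv c ρ j) 1 = ζ := by
    rw [line_apply, vv_1]; simp
  have h2 : (c • e0 + ζ • vv c ρ j) 2 = ζ * ((mm j : ℝ) : ℂ) := by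
    rw [line_apply, vv_2]; simp
  refine ⟨?_, ?_⟩
  · rw [h0, h1]
    have : c - ζ * (c * ((ρ / 32 : ℝ) : ℂ)) - c * (1 - ζ * ((ρ / 32 : ℝ) : ℂ)) = 0 := by ring
    rw [this, norm_zero]
    linarith
  · rw [h2, h1]
    have : ζ * ((mm j : ℝ) : ℂ) - ((mm j : ℝ) : ℂ) * ζ = 0 := by ring
    rw [this, norm_zero]
    have := mm_pos j
    linarith

lemma line_meet (c c' : ℂ) {ρ : ℝ} (hρ : 0 < ρ) (j : ℕ) :
    c • e0 + ((32 / ρ : ℝ) : ℂ) • vv c ρ j = c' • e0 + ((32 / ρ : ℝ) : ℂ) • vv c' ρ j := by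
  have hρ' : (ρ : ℂ) ≠ 0 := by exact_mod_cast hρ.ne'
  ext i
  rw [line_apply, line_apply]
  fin_cases i
  · show (c • e0) 0 + ((32 / ρ : ℝ) : ℂ) * vv c ρ j 0
      = (c' • e0) 0 + ((32 / ρ : ℝ) : ℂ) * vv c' ρ j 0
    rw [vv_0, vv_0]
    simp
    field_simp
    ring
  · show (c • e0) 1 + ((32 / ρ : ℝ) : ℂ) * vv c ρ j 1
      = (c' • e0) 1 + ((32 / ρ : ℝ) : ℂ) * vv c' ρ j 1
    rw [vv_1, vv_1]
    simp
  · show (c • e0) 2 + ((32 / ρ : ℝ) : ℂ) * vv c ρ j 2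
      = (c' • e0) 2 + ((32 / ρ : ℝ) : ℂ) * vv c' ρ j 2
    rw [vv_2, vv_2]
    simp

/-- bounded plurisubharmonic functions take the same value at the two feet of the tubes -/
lemma Data.eq_feet (H : Data p d ρ C u) {φ : C3 → ℝ} (hφ : CPSHOn φ (Om p d ρ))
    (hb : BddAbove (φ '' Om p d ρ)) (j : ℕ) :
    φ (p j • e0) = φ ((p j + ((ρ j / 2 : ℝ) : ℂ) * d j) • e0) := by
  obtain ⟨M, hM⟩ := hb
  have hρ := H.hρ j
  have key : ∀ c : ℂ, (∀ ζ : ℂ, c • e0 + ζ • vv c (ρ j) j ∈ Om p d ρ) →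
      φ (c • e0) = φ (c • e0 + ((32 / ρ j : ℝ) : ℂ) • vv c (ρ j) j) := by
    intro c hc
    have := liouville (g := fun ζ : ℂ => φ (c • e0 + ζ • vv c (ρ j) j))
      (fun ζ => hφ.SH (Om_open p d ρ) (hc ζ)) (M := M)
      (fun ζ => hM ⟨_, hc ζ, rfl⟩) 0 ((32 / ρ j : ℝ) : ℂ)
    simpa using this
  rw [key (p j), key (p j + ((ρ j / 2 : ℝ) : ℂ) * d j), line_meet _ _ hρ]
  · intro ζ
    exact Or.inr (mem_iUnion.2 ⟨j, Or.inr (line_mem_tube _ hρ j ζ)⟩)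
  · intro ζ
    exact Or.inr (mem_iUnion.2 ⟨j, Or.inl (line_mem_tube _ hρ j ζ)⟩)

/-- the open annulus is connected -/
lemma annulus_preconnected : IsPreconnected {z : ℂ | 1 < ‖z‖ ∧ ‖z‖ < 2} := by
  have h1 : IsPreconnected ((Ioo (1:ℝ) 2) ×ˢ (univ : Set ℝ)) :=
    isPreconnected_Ioo.prod isPreconnected_univ
  have h2 := h1.image (fun x : ℝ × ℝ => (x.1 : ℂ) * Complex.exp (x.2 * I))
    (by fun_prop : Continuous _).continuousOn
  convert h2 using 1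
  ext z
  simp only [mem_setOf_eq, mem_image, mem_prod, mem_Ioo, mem_univ, and_true, Prod.exists]
  constructor
  · rintro ⟨h1, h2⟩
    exact ⟨‖z‖, z.arg, ⟨h1, h2⟩, Complex.norm_mul_exp_arg_mul_I z⟩
  · rintro ⟨a, b, ⟨h1, h2⟩, rfl⟩
    have : ‖(a : ℂ) * Complex.exp (b * I)‖ = a := by
      rw [norm_mul, Complex.norm_exp_ofReal_mul_I, mul_one, Complex.norm_real, Real.norm_eq_abs,
        abs_of_pos (by linarith)]
    rw [this]
    exact ⟨h1, h2⟩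

lemma Om_BB_line {z : ℂ} (hz : ‖z‖ < 3) : z • e0 ∈ Om p d ρ := Or.inl (mem_BB_line hz)

theorem Data.mem_core (H : Data p d ρ C u)
    (hdense : ∀ z : ℂ, 1 < ‖z‖ → ‖z‖ < 2 → ∀ ε : ℝ, 0 < ε → ∀ e : ℂ, (e = 1 ∨ e = I) →
      ∃ j, (1 / 2 : ℝ) ^ j < ε ∧ d j = e ∧ ‖p j - z‖ < ε)
    {s : ℕ∞} (hs : 1 ≤ s) : (0 : C3) ∈ core s (Om p d ρ) := by
  have h00 : (0 : C3) ∈ Om p d ρ := by
    have := Om_BB_line (p := p) (d := d) (ρ := ρ) (z := 0) (by simp)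
    simpa using this
  refine ⟨h00, ?_⟩
  rintro ⟨φ, hφs, hφ, hφb, U, hU, h0U, hUO, ε, hε, hstr⟩
  have hφ1 : ContDiffOn ℝ 1 φ (Om p d ρ) := hφs.of_le (by exact_mod_cast hs)
  set Hf : ℂ → ℝ := fun z => φ (z • e0) with hHf
  have hopen3 : IsOpen {z : ℂ | ‖z‖ < 3} := isOpen_lt continuous_norm continuous_const
  have hH1 : ContDiffOn ℝ 1 Hf {z : ℂ | ‖z‖ < 3} := by
    refine hφ1.comp (f := fun z : ℂ => z • e0) (t := Om p d ρ) ?_ ?_
    · have : ContDiff ℝ 1 (fun z : ℂ => z • e0) := by fun_prop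
      exact this.contDiffOn
    · intro z hz
      exact Om_BB_line hz
  have hHd : ∀ z : ℂ, ‖z‖ < 3 → DifferentiableAt ℝ Hf z := fun z hz =>
    (hH1.differentiableOn one_ne_zero).differentiableAt (hopen3.mem_nhds hz)
  have hHc : ContinuousOn (fderiv ℝ Hf) {z : ℂ | ‖z‖ < 3} :=
    hH1.continuousOn_fderiv_of_isOpen hopen3 (le_refl _)
  -- derivative vanishes in the two directions
  have hzero : ∀ z : ℂ, 1 < ‖z‖ → ‖z‖ < 2 → ∀ e : ℂ, (e = 1 ∨ e = I) → fderiv ℝ Hf z e = 0 := by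
    intro z hz1 hz2 e he
    by_contra hne
    have hcat : ContinuousAt (fun ζ => fderiv ℝ Hf ζ e) z :=
      (hHc.continuousAt (hopen3.mem_nhds (by show ‖z‖ < 3; linarith))).clm_apply
        continuousAt_const
    have hev : ∀ᶠ ζ in 𝓝 z, fderiv ℝ Hf ζ e ≠ 0 := hcat.eventually_ne hne
    obtain ⟨δ, hδ, hδ2⟩ := Metric.eventually_nhds_iff_ball.1 hev
    obtain ⟨j, hj1, hj2, hj3⟩ := hdense z hz1 hz2 (δ / 2) (half_pos hδ) e he
    have hρ := H.hρ j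
    have hρ2 := H.hρ2 j
    have hmem : ∀ t : ℝ, 0 ≤ t → t ≤ ρ j / 2 → p j + (t : ℂ) * d j ∈ ball (p j) (ρ j) := by
      intro t ht0 ht1
      rw [mem_ball, dist_eq_norm, add_sub_cancel_left, norm_mul, H.hd, Complex.norm_real,
        Real.norm_eq_abs, abs_of_nonneg ht0]
      linarith
    have hder : ∀ t : ℝ, 0 ≤ t → t ≤ ρ j / 2 →
        HasDerivAt (fun t : ℝ => Hf (p j + (t : ℂ) * d j))
          (fderiv ℝ Hf (p j + (t : ℂ) * d j) (d j)) t := by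
      intro t ht0 ht1
      have hn := (H.hpl j _ (hmem t ht0 ht1)).2.1
      have h1 := (hHd (p j + (t : ℂ) * d j) (by linarith)).hasFDerivAt
      have h2 : HasDerivAt (fun t : ℝ => p j + (t : ℂ) * d j) (d j) t := by
        have h3 : HasDerivAt (fun t : ℝ => (t : ℂ)) 1 t := Complex.ofRealCLM.hasDerivAt
        have h4 := (h3.mul_const (d j)).const_add (p j)
        simpa using h4
      exact h1.comp_hasDerivAt t h2
    obtain ⟨t, ht, ht2⟩ := exists_hasDerivAt_eq_zero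
      (f := fun t : ℝ => Hf (p j + (t : ℂ) * d j))
      (f' := fun t : ℝ => fderiv ℝ Hf (p j + (t : ℂ) * d j) (d j))
      (a := 0) (b := ρ j / 2) (by linarith)
      (fun t ht => (hder t ht.1 ht.2).continuousAt.continuousWithinAt)
      (by
        have := H.eq_feet hφ hφb j
        simpa [hHf] using this)
      (fun t ht => hder t ht.1.le ht.2.le)
    refine hδ2 (p j + (t : ℂ) * d j) ?_ ?_
    · rw [mem_ball, dist_eq_norm]
      have h5 : p j + (t : ℂ) * d j - z = (p j - z) + (t : ℂ) * d j := by ring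
      have h6 : ‖(t : ℂ) * d j‖ = t := by
        rw [norm_mul, H.hd, Complex.norm_real, Real.norm_eq_abs, abs_of_pos ht.1, mul_one]
      rw [h5]
      have := norm_add_le (p j - z) ((t : ℂ) * d j)
      linarith [ht.2]
    · rw [← hj2]
      exact ht2
  have hzero' : ∀ z ∈ {z : ℂ | 1 < ‖z‖ ∧ ‖z‖ < 2}, fderiv ℝ Hf z = 0 := by
    rintro z ⟨hz1, hz2⟩
    ext v
    have hv : v = v.re • (1:ℂ) + v.im • I := by
      apply Complex.ext <;> simp
    rw [hv, map_add, map_smul, map_smul, hzero z hz1 hz2 1 (Or.inl rfl),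
      hzero z hz1 hz2 I (Or.inr rfl)]
    simp
  have hAopen : IsOpen {z : ℂ | 1 < ‖z‖ ∧ ‖z‖ < 2} :=
    (isOpen_lt continuous_const continuous_norm).inter (isOpen_lt continuous_norm continuous_const)
  obtain ⟨c, hc⟩ := hAopen.exists_is_const_of_fderiv_eq_zero (𝕜 := ℝ) annulus_preconnected
    (fun z hz => (hHd z (by linarith [hz.2])).differentiableWithinAt) (fun z hz => hzero' z hz)
  have hSH : ∀ z : ℂ, ‖z‖ < 3 → SH Hf z := by
    intro z hz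
    have := hφ.SH (Om_open p d ρ) (z := 0) (ξ := e0) (ζ₀ := z) (by
      rw [zero_add]; exact Om_BB_line hz)
    simpa [hHf] using this
  have hle : ∀ z ∈ closedBall (0:ℂ) (3 / 2), Hf z ≤ c := by
    refine max_principle (isCompact_closedBall (0:ℂ) (3 / 2)) isOpen_ball ball_subset_closedBall
      ?_ ?_ ?_
    · intro z hz
      have : ‖z‖ ≤ 3 / 2 := by simpa using hz
      exact (hHd z (by linarith)).continuousAt.continuousWithinAt
    · intro z hz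
      have : ‖z‖ < 3 / 2 := by simpa using hz
      exact hSH z (by linarith)
    · rintro z ⟨hz1, hz2⟩
      have h1 : ‖z‖ ≤ 3 / 2 := by simpa using hz1
      have h2 : 3 / 2 ≤ ‖z‖ := by simpa using hz2
      exact (hc z ⟨by linarith, by linarith⟩).le
  have h54 : ‖(5 / 4 : ℂ)‖ = 5 / 4 := by
    rw [show (5 / 4 : ℂ) = ((5 / 4 : ℝ) : ℂ) by push_cast; rfl, Complex.norm_real]
    norm_num
  have heq : ∀ z ∈ ball (0:ℂ) (3 / 2), Hf z = c := by
    refine strong_max isOpen_ball (convex_ball _ _).isPreconnected ?_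
      (fun z hz => hle z (ball_subset_closedBall hz)) (z₀ := (5 / 4 : ℂ)) ?_ ?_
    · intro z hz
      have : ‖z‖ < 3 / 2 := by simpa using hz
      exact hSH z (by linarith)
    · rw [mem_ball, dist_zero_right, h54]; norm_num
    · refine hc _ ⟨?_, ?_⟩ <;> rw [h54] <;> norm_num
  -- contradiction with strict plurisubharmonicity
  have hfin := hstr.SH hU (z := 0) (ξ := e0) (ζ₀ := 0) (by simpa using h0U)
  obtain ⟨r, hr1, hr2⟩ := (hfin.2.and (Ioo_mem_nhdsGT (show (0:ℝ) < 3 / 2 by norm_num))).exists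
  have he0 : ‖e0‖ = 1 := by simp [e0]
  have hval : ∀ ζ ∈ sphere (0:ℂ) |r|,
      φ ((0:C3) + ζ • e0) - ε * ‖(0:C3) + ζ • e0‖ ^ 2 = c - ε * r ^ 2 := by
    intro ζ hζ
    have h1 : ‖ζ‖ = r := by simpa [abs_of_pos hr2.1] using hζ
    have h2 : Hf ζ = c := heq ζ (by rw [mem_ball, dist_zero_right, h1]; exact hr2.2)
    rw [zero_add, norm_smul, he0, mul_one, h1]
    have h3 : φ (ζ • e0) = Hf ζ := rfl
    rw [h3, h2]
  rw [circleAverage_const_on_circle hval] at hr1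
  have h4 : φ ((0:C3) + (0:ℂ) • e0) = c := by
    have h2 : Hf 0 = c := heq 0 (by simp)
    rw [zero_add]
    exact h2
  simp only [h4] at hr1
  have h5 : 0 < ε * r ^ 2 := mul_pos hε (pow_pos hr2.1 2)
  simp at hr1
  linarith

end R235.CO
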